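import Mathlib.Tactic.Monotonicity.Lemmas
import Mathlib.Algebra.Module.Torsion.Prod
import Mathlib.RingTheory.Flat.TorsionFree
import Mathlib.Data.Int.Star
import Mathlib.Algebra.Order.Ring.Star
import Mathlib.Analysis.InnerProductSpace.PiL2
import Mathlib.Algebra.Order.Chebyshev
import Mathlib.Algebra.Order.Star.Real
import Mathlib.Algebra.Polynomial.OfFn
import Mathlib.Algebra.Ring.IsFormallyReal
import Mathlib.LinearAlgebra.AffineSpace.FiniteDimensional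
import Mathlib.Analysis.Complex.ExponentialBounds
import Mathlib.Combinatorics.Pigeonhole
import Mathlib.Combinatorics.Additive.RuzsaCovering
import Mathlib.Combinatorics.Additive.PluenneckeRuzsa
import Mathlib.Combinatorics.Additive.Energy
import Mathlib.Data.Finset.Slice
import Mathlib.Data.Rat.Star
import Mathlib.RingTheory.TotallySplit
import Mathlib.RingTheory.Etale.Weakly
import Mathlib.Tactic.Polynomial.Basic

-- ======== part 0: formerly Pool.Agent.MP_ddf486_co.Basic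
section MrgPart0

/-! Counting tools for planar sets of small doubling: towers of sumsets, a pigeonhole lemma,
iterated dilations, cones between lines through the origin, dyadic classes and digit sums. -/

namespace SDL
open Finset

section gen
variable {V : Type*} [AddCommGroup V]

/-- A filtration of symmetric finite sets compatible with addition. -/
structure Tower (H : ℕ → Finset V) : Prop where
  zero : ∀ m, (0 : V) ∈ H m
  neg : ∀ m x, x ∈ H m → -x ∈ H m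
  add : ∀ a b x y, x ∈ H a → y ∈ H b → x + y ∈ H (a + b)

variable {H : ℕ → Finset V}

lemma Tower.mono (h : Tower H) {a b : ℕ} (hab : a ≤ b) {x : V} (hx : x ∈ H a) : x ∈ H b := by
  have := h.add a (b - a) x 0 hx (h.zero _)
  rwa [add_zero, Nat.add_sub_cancel' hab] at this

lemma Tower.add' (h : Tower H) {a b c : ℕ} {x y : V} (hx : x ∈ H a) (hy : y ∈ H b)
    (hc : a + b ≤ c) : x + y ∈ H c := h.mono hc (h.add _ _ _ _ hx hy)

lemma Tower.sub' (h : Tower H) {a b c : ℕ} {x y : V} (hx : x ∈ H a) (hy : y ∈ H b)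
    (hc : a + b ≤ c) : x - y ∈ H c := by
  rw [sub_eq_add_neg]; exact h.add' hx (h.neg _ _ hy) hc

lemma Tower.nsmul (h : Tower H) {a : ℕ} {x : V} (hx : x ∈ H a) (c : ℕ) : c • x ∈ H (c * a) := by
  induction c with
  | zero => simpa using h.zero 0
  | succ c ih => rw [succ_nsmul, Nat.succ_mul]; exact h.add _ _ _ _ ih hx

lemma Tower.sum (h : Tower H) {ι : Type*} (s : Finset ι) (f : ι → V) (c : ℕ)
    (hf : ∀ i ∈ s, f i ∈ H c) : ∑ i ∈ s, f i ∈ H (#s * c) := by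
  classical
  induction s using Finset.induction_on with
  | empty => simpa using h.zero 0
  | insert a s ha ih =>
    rw [sum_insert ha, card_insert_of_notMem ha]
    refine h.add' (hf a (mem_insert_self _ _)) (ih fun i hi => hf i (mem_insert_of_mem hi)) ?_
    rw [Nat.succ_mul]; omega

variable [DecidableEq V]

lemma pig {ι : Type*} (Y : Finset ι) (f : ι → V) (F Z : Finset V)
    (h : ∀ y ∈ Y, ∀ u ∈ F, f y + u ∈ Z) :
    ∃ z, #Y * #F ≤ #Z * #(Y.filter fun y => z - f y ∈ F) := by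
  classical
  rcases Z.eq_empty_or_nonempty with rfl | hZ
  · refine ⟨0, ?_⟩
    rcases Y.eq_empty_or_nonempty with rfl | ⟨y, hy⟩
    · simp
    rcases F.eq_empty_or_nonempty with rfl | ⟨u, hu⟩
    · simp
    exact absurd (h y hy u hu) (notMem_empty _)
  obtain ⟨z, -, hz⟩ := Z.exists_max_image (fun z => #(Y.filter fun y => z - f y ∈ F)) hZ
  refine ⟨z, card_mul_le_card_mul (fun y z => z - f y ∈ F) (fun y hy => ?_) (fun b hb => ?_)⟩
  · refine card_le_card_of_injOn (fun u => f y + u) (fun u hu => ?_) (fun u _ v _ huv => ?_)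
    · have hu' : u ∈ F := hu
      simp only [coe_bipartiteAbove, Set.mem_ofPred_eq, add_sub_cancel_left]
      exact ⟨h y hy u hu', hu'⟩
    · exact add_left_cancel huv
  · exact hz b hb

lemma chain [Module ℝ V] (hH : Tower H) (φ : ℝ) (W : Finset V) (c G : ℕ)
    (hW : ∀ w ∈ W, w ∈ H c) (hφ : ∀ w ∈ W, φ • w ∈ H c) (hG : #(H (3 * c)) ≤ G * #W) (i : ℕ) :
    ∃ Y ⊆ W, #W ≤ G ^ i * #Y ∧ ∀ y ∈ Y, ∀ y' ∈ Y, ∀ l ≤ i,
      ∃ w ∈ W, ∃ w' ∈ W, φ ^ l • (y - y') = w - w' := by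
  induction i with
  | zero =>
    refine ⟨W, Subset.rfl, by simp, fun y hy y' hy' l hl => ⟨y, hy, y', hy', ?_⟩⟩
    obtain rfl : l = 0 := by omega
    simp
  | succ i ih =>
    obtain ⟨Y, hYW, hY, hYp⟩ := ih
    rcases Y.eq_empty_or_nonempty with rfl | ⟨y0, hy0⟩
    · exact ⟨∅, hYW, by simpa using hY, by simp⟩
    have hWp : 0 < #W := card_pos.2 ⟨y0, hYW hy0⟩
    obtain ⟨z, hz⟩ := pig Y (fun y => φ ^ (i + 1) • (y - y0)) W (H (3 * c)) (by
      intro y hy u hu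
      obtain ⟨w, hw, w', hw', e⟩ := hYp y hy y0 hy0 i le_rfl
      have : φ ^ (i + 1) • (y - y0) = φ • w - φ • w' := by
        rw [pow_succ', mul_smul, e, smul_sub]
      rw [this]
      exact hH.add' (hH.sub' (hφ w hw) (hφ w' hw') le_rfl) (hW u hu) (by omega))
    set Y' := Y.filter fun y => z - φ ^ (i + 1) • (y - y0) ∈ W with hY'
    refine ⟨Y', (filter_subset _ _).trans hYW, ?_, fun y hy y' hy' l hl => ?_⟩
    · have h1 : #Y * #W ≤ (G * #Y') * #W :=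
        calc #Y * #W ≤ #(H (3 * c)) * #Y' := hz
          _ ≤ G * #W * #Y' := Nat.mul_le_mul_right _ hG
          _ = _ := by ring
      have h2 := Nat.le_of_mul_le_mul_right h1 hWp
      calc #W ≤ G ^ i * #Y := hY
        _ ≤ G ^ i * (G * #Y') := Nat.mul_le_mul_left _ h2
        _ = _ := by ring
    · rw [hY', mem_filter] at hy hy'
      rcases Nat.lt_or_ge l (i + 1) with h | h
      · exact hYp y hy.1 y' hy'.1 l (by omega)
      · obtain rfl : l = i + 1 := by omega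
        refine ⟨_, hy'.2, _, hy.2, ?_⟩
        simp only [smul_sub]; abel

end gen

section pairs
variable {α β : Type*} [DecidableEq β]

/-- Number of ordered pairs with the same value. -/
def ep (S : Finset α) (f : α → β) : ℕ := #((S ×ˢ S).filter fun p => f p.1 = f p.2)

lemma card_pairs (S : Finset α) (f : α → β) (ψ : β → β) :
    #((S ×ˢ S).filter fun p => f p.1 = ψ (f p.2)) =
      ∑ c ∈ S.image f, #(S.filter fun x => f x = ψ c) * #(S.filter fun x => f x = c) := by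
  rw [card_eq_sum_card_fiberwise (f := fun p => f p.2) (t := S.image f)]
  · refine sum_congr rfl fun c _ => ?_
    rw [← card_product]
    congr 1
    ext ⟨x, y⟩
    simp only [mem_filter, mem_product]
    constructor
    · rintro ⟨⟨⟨h1, h2⟩, h3⟩, h4⟩
      exact ⟨⟨h1, by rw [h3, h4]⟩, h2, h4⟩
    · rintro ⟨⟨h1, h3⟩, h2, h4⟩
      exact ⟨⟨⟨h1, h2⟩, by rw [h3, h4]⟩, h4⟩
  · intro p hp
    have hp' := (mem_filter.1 (mem_coe.1 hp)).1
    exact mem_coe.2 (mem_image_of_mem f (mem_product.1 hp').2)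

lemma ep_eq (S : Finset α) (f : α → β) :
    ep S f = ∑ c ∈ S.image f, #(S.filter fun x => f x = c) ^ 2 := by
  have := card_pairs S f id
  simp only [id] at this
  rw [ep, this]
  exact sum_congr rfl fun c _ => by ring

lemma cs (S : Finset α) (f : α → β) : #S ^ 2 ≤ #(S.image f) * ep S f := by
  rw [ep_eq, card_eq_sum_card_image f S]
  exact sq_sum_le_card_mul_sum_sq

lemma cross (S : Finset α) (f : α → β) (ψ : β → β) (hψ : Function.Injective ψ) :
    #((S ×ˢ S).filter fun p => f p.1 = ψ (f p.2)) ≤ ep S f := by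
  rw [card_pairs, ep_eq]
  set b : β → ℕ := fun c => #(S.filter fun x => f x = c) with hb
  have h1 : ∑ c ∈ S.image f, b (ψ c) ^ 2 ≤ ∑ c ∈ S.image f, b c ^ 2 := by
    rw [← sum_image (s := S.image f) (g := ψ) (f := fun c => b c ^ 2) fun x _ y _ h => hψ h]
    refine sum_le_sum_of_ne_zero fun c _ hc => ?_
    have : b c ≠ 0 := fun h => hc (by rw [h]; rfl)
    obtain ⟨x, hx⟩ := card_pos.1 (Nat.pos_of_ne_zero this)
    rw [mem_filter] at hx
    exact mem_image.2 ⟨x, hx.1, hx.2⟩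
  have h2 : 2 * ∑ c ∈ S.image f, b (ψ c) * b c ≤
      ∑ c ∈ S.image f, b (ψ c) ^ 2 + ∑ c ∈ S.image f, b c ^ 2 := by
    rw [mul_sum, ← sum_add_distrib]
    exact sum_le_sum fun c _ => by nlinarith [two_mul_le_add_sq (b (ψ c) : ℤ) (b c)]
  show ∑ c ∈ S.image f, b (ψ c) * b c ≤ ∑ c ∈ S.image f, b c ^ 2
  omega

end pairs

/-- Points of `Z` in the right half plane with slope between `σ` and `τ`. -/
noncomputable def cone (Z : Finset (ℝ × ℝ)) (σ τ : ℝ) : Finset (ℝ × ℝ) :=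
  Z.filter fun p => 0 < p.1 ∧ σ * p.1 ≤ p.2 ∧ p.2 ≤ τ * p.1

lemma blocks (S : Finset ℝ) (Z : Finset (ℝ × ℝ)) (t nb c M : ℕ)
    (h : ∀ s : ℕ → ℝ, StrictMonoOn s (Set.Iic t) → (∀ i ≤ t, s i ∈ S) →
      c ≤ M * #(cone Z (s 0) (s t))) (hn : nb * (t + 1) ≤ #S) : nb * c ≤ M * #Z := by
  classical
  let e := S.orderEmbOfFin rfl
  let s : ℕ → ℝ := fun i => if h : i < #S then e ⟨i, h⟩ else 0
  have hs : ∀ i j, i < j → j < #S → s i < s j := fun i j hij hj => by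
    simp only [s, dif_pos hj, dif_pos (hij.trans hj)]
    exact e.strictMono (Fin.mk_lt_mk.2 hij)
  have hm : ∀ i < #S, s i ∈ S := fun i hi => by
    simp only [s, dif_pos hi]
    exact S.orderEmbOfFin_mem rfl _
  have hlt : ∀ b < nb, ∀ i ≤ t, b * (t + 1) + i < #S := fun b hb i hi => by
    have : (b + 1) * (t + 1) ≤ nb * (t + 1) := Nat.mul_le_mul_right _ hb
    nlinarith
  let C : ℕ → Finset (ℝ × ℝ) := fun b => cone Z (s (b * (t + 1))) (s (b * (t + 1) + t))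
  have hd : ∀ b b', b < b' → b' < nb → Disjoint (C b) (C b') := fun b b' h1 h2 => by
    rw [disjoint_left]
    intro p hp hp'
    simp only [C, cone, mem_filter] at hp hp'
    have h3 : (b + 1) * (t + 1) ≤ b' * (t + 1) := Nat.mul_le_mul_right _ h1
    have := hs (b * (t + 1) + t) (b' * (t + 1)) (by nlinarith) (hlt b' h2 0 (Nat.zero_le _))
    nlinarith [hp.2.1, hp.2.2.2, hp'.2.2.1]
  have h1 : ∑ b ∈ range nb, #(C b) ≤ #Z := by
    rw [← card_biUnion]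
    · exact card_le_card (biUnion_subset.2 fun b _ => filter_subset _ _)
    · intro b hb b' hb' hne
      have hb1 := mem_range.1 (mem_coe.1 hb)
      have hb2 := mem_range.1 (mem_coe.1 hb')
      rcases lt_or_gt_of_ne hne with h | h
      · exact hd b b' h hb2
      · exact (hd b' b h hb1).symm
  calc nb * c = ∑ _b ∈ range nb, c := by simp
    _ ≤ ∑ b ∈ range nb, M * #(C b) := sum_le_sum fun b hb => by
        have hb1 := mem_range.1 hb
        exact h (fun i => s (b * (t + 1) + i))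
          (fun i _ j hj hij => hs _ _ (by omega) (hlt b hb1 j hj))
          (fun i hi => hm _ (hlt b hb1 i hi))
    _ = M * ∑ b ∈ range nb, #(C b) := by rw [mul_sum]
    _ ≤ _ := Nat.mul_le_mul_left _ h1

/-- Sums of a point on the line of slope `σ` and a point on the line of slope `τ`. -/
noncomputable def grid (σ τ : ℝ) (F F' : Finset ℝ) : Finset (ℝ × ℝ) :=
  (F ×ˢ F').image fun q => (q.1 + q.2, σ * q.1 + τ * q.2)

lemma card_grid {σ τ : ℝ} (h : σ ≠ τ) (F F' : Finset ℝ) : #(grid σ τ F F') = #F * #F' := by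
  rw [grid, card_image_of_injective, card_product]
  rintro ⟨x, y⟩ ⟨x', y'⟩ e
  simp only [Prod.mk.injEq] at e ⊢
  have h1 : (σ - τ) * (x - x') = 0 := by linear_combination e.2 - τ * e.1
  have h2 : x = x' := by
    rcases mul_eq_zero.1 h1 with h3 | h3
    · exact absurd (sub_eq_zero.1 h3) h
    · exact sub_eq_zero.1 h3
  exact ⟨h2, by linarith [e.1]⟩

lemma mem_grid {σ τ : ℝ} {F F' : Finset ℝ} {u : ℝ × ℝ} :
    u ∈ grid σ τ F F' ↔ ∃ x ∈ F, ∃ y ∈ F', (x + y, σ * x + τ * y) = u := by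
  simp only [grid, mem_image, mem_product, Prod.exists]
  exact ⟨fun ⟨x, y, ⟨h1, h2⟩, h3⟩ => ⟨x, h1, y, h2, h3⟩,
    fun ⟨x, h1, y, h2, h3⟩ => ⟨x, y, ⟨h1, h2⟩, h3⟩⟩

lemma sol (S : Finset ℝ) (F : ℝ → Finset ℝ) (Z : Finset (ℝ × ℝ)) (k M : ℕ)
    (hpos : ∀ σ ∈ S, ∀ x ∈ F σ, 0 < x) (hk : ∀ σ ∈ S, k ≤ M * #(F σ))
    (hZ : ∀ σ ∈ S, ∀ τ ∈ S, ∀ x ∈ F σ, ∀ y ∈ F τ, (x + y, σ * x + τ * y) ∈ Z) :
    #S * k ^ 2 ≤ 2 * (M ^ 2 * #Z) + k ^ 2 := by
  have h := blocks S Z 1 (#S / 2) (k ^ 2) (M ^ 2) (fun s hs hm => ?_) (by omega)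
  · have : #S ≤ 2 * (#S / 2) + 1 := by omega
    nlinarith [Nat.mul_le_mul_right (k ^ 2) this]
  have h01 : s 0 < s 1 := hs (by simp) (by simp) one_pos
  have h0 := hm 0 (by omega)
  have h1 := hm 1 le_rfl
  have : #(grid (s 0) (s 1) (F (s 0)) (F (s 1))) ≤ #(cone Z (s 0) (s 1)) := by
    refine card_le_card fun u hu => ?_
    obtain ⟨x, hx, y, hy, rfl⟩ := mem_grid.1 hu
    have hx' := hpos _ h0 x hx
    have hy' := hpos _ h1 y hy
    refine mem_filter.2 ⟨hZ _ h0 _ h1 x hx y hy, ?_, ?_, ?_⟩ <;> dsimp only <;> nlinarith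
  rw [card_grid h01.ne] at this
  calc k ^ 2 = k * k := sq k
    _ ≤ (M * #(F (s 0))) * (M * #(F (s 1))) := Nat.mul_le_mul (hk _ h0) (hk _ h1)
    _ = M ^ 2 * (#(F (s 0)) * #(F (s 1))) := by ring
    _ ≤ _ := Nat.mul_le_mul_left _ this

/-- First coordinates of the points of `S` on the line of slope `σ` through the origin. -/
noncomputable def ln (S : Finset (ℝ × ℝ)) (σ : ℝ) : Finset ℝ :=
  (S.image Prod.fst).filter fun x => (x, σ * x) ∈ S

/-- The positive ones. -/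
noncomputable def lp (S : Finset (ℝ × ℝ)) (σ : ℝ) : Finset ℝ := (ln S σ).filter fun x => 0 < x

lemma mem_ln {S : Finset (ℝ × ℝ)} {σ x : ℝ} : x ∈ ln S σ ↔ (x, σ * x) ∈ S := by
  rw [ln, mem_filter]
  exact ⟨fun h => h.2, fun h => ⟨mem_image.2 ⟨_, h, rfl⟩, h⟩⟩

lemma mem_lp {S : Finset (ℝ × ℝ)} {σ x : ℝ} : x ∈ lp S σ ↔ (x, σ * x) ∈ S ∧ 0 < x := by
  rw [lp, mem_filter, mem_ln]

lemma card_lp_le (S : Finset (ℝ × ℝ)) (σ : ℝ) : #(lp S σ) ≤ #S :=
  ((card_filter_le _ _).trans (card_filter_le _ _)).trans card_image_le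

lemma Tower.line {H : ℕ → Finset (ℝ × ℝ)} (h : Tower H) (σ : ℝ) :
    Tower fun m => ln (H m) σ where
  zero m := by rw [mem_ln, mul_zero]; exact h.zero m
  neg m x hx := by
    rw [mem_ln] at hx ⊢
    rw [mul_neg]; exact h.neg m _ hx
  add a b x y hx hy := by
    rw [mem_ln] at hx hy ⊢
    rw [mul_add]; exact h.add a b _ _ hx hy

lemma card_symm (D : Finset ℝ) (hD : ∀ x ∈ D, -x ∈ D) :
    #D ≤ 2 * #(D.filter fun x => 0 < x) + 1 := by
  have : D ⊆ insert 0 ((D.filter fun x => 0 < x) ∪ (D.filter fun x => 0 < x).image Neg.neg) := by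
    intro x hx
    rcases lt_trichotomy x 0 with h | h | h
    · exact mem_insert_of_mem (mem_union_right _
        (mem_image.2 ⟨-x, mem_filter.2 ⟨hD x hx, by linarith⟩, neg_neg x⟩))
    · rw [h]; exact mem_insert_self _ _
    · exact mem_insert_of_mem (mem_union_left _ (mem_filter.2 ⟨hx, h⟩))
  have h1 := card_le_card this
  have h2 := card_insert_le (0 : ℝ)
    ((D.filter fun x => 0 < x) ∪ (D.filter fun x => 0 < x).image Neg.neg)
  have h3 := card_union_le (D.filter fun x => 0 < x) ((D.filter fun x => 0 < x).image Neg.neg)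
  have h4 : #((D.filter fun x => 0 < x).image Neg.neg) ≤ _ := card_image_le
  omega

/-- Dyadic class. -/
def cls (S : Finset ℝ) (a : ℝ → ℕ) (j : ℕ) : Finset ℝ :=
  S.filter fun σ => 2 ^ j ≤ a σ ∧ a σ < 2 ^ (j + 1)

lemma dy (S : Finset ℝ) (a : ℝ → ℕ) (T : ℕ) (h : ∀ σ ∈ S, a σ < 2 ^ T) :
    ∑ σ ∈ S, a σ ^ 2 ≤ ∑ j ∈ range T, 4 * (#(cls S a j) * (2 ^ j) ^ 2) := by
  have h1 : ∀ σ ∈ S, a σ ^ 2 ≤ ∑ j ∈ range T,
      if 2 ^ j ≤ a σ ∧ a σ < 2 ^ (j + 1) then 4 * (2 ^ j) ^ 2 else 0 := fun σ hσ => by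
    rcases Nat.eq_zero_or_pos (a σ) with h0 | h0
    · simp [h0]
    have e1 := Nat.pow_log_le_self 2 h0.ne'
    have e2 := Nat.lt_pow_succ_log_self one_lt_two (a σ)
    have e3 : Nat.log 2 (a σ) ∈ range T :=
      mem_range.2 (Nat.log_lt_of_lt_pow h0.ne' (h σ hσ))
    refine le_trans ?_ (single_le_sum (f := fun j =>
      if 2 ^ j ≤ a σ ∧ a σ < 2 ^ (j + 1) then 4 * (2 ^ j) ^ 2 else 0)
      (fun _ _ => Nat.zero_le _) e3)
    rw [if_pos ⟨e1, e2⟩]
    calc a σ ^ 2 ≤ (2 ^ (Nat.log 2 (a σ) + 1)) ^ 2 := Nat.pow_le_pow_left e2.le 2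
      _ = _ := by ring
  refine (sum_le_sum h1).trans ?_
  rw [sum_comm]
  refine sum_le_sum fun j _ => ?_
  rw [← sum_filter, sum_const, smul_eq_mul, cls]
  exact le_of_eq (by ring)

lemma cls_le (S : Finset ℝ) (F : ℝ → Finset ℝ) (Z : Finset (ℝ × ℝ)) (Z0 : ℕ)
    (hpos : ∀ σ ∈ S, ∀ x ∈ F σ, 0 < x)
    (hZ : ∀ σ ∈ S, ∀ τ ∈ S, ∀ x ∈ F σ, ∀ y ∈ F τ, (x + y, σ * x + τ * y) ∈ Z)
    (h0 : #Z ≤ Z0) (h1 : ∀ σ ∈ S, #(F σ) ^ 2 ≤ Z0) (j : ℕ) :
    #(cls S (fun σ => #(F σ)) j) * (2 ^ j) ^ 2 ≤ 3 * Z0 := by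
  rcases (cls S (fun σ => #(F σ)) j).eq_empty_or_nonempty with h | ⟨σ, hσ⟩
  · simp [h]
  have hs : ∀ τ ∈ cls S (fun σ => #(F σ)) j, τ ∈ S := fun τ hτ => (mem_filter.1 hτ).1
  have h2 := sol (cls S (fun σ => #(F σ)) j) F Z (2 ^ j) 1 (fun τ hτ => hpos τ (hs τ hτ))
    (fun τ hτ => by simpa using (mem_filter.1 hτ).2.1)
    (fun τ hτ υ hυ => hZ τ (hs τ hτ) υ (hs υ hυ))
  have h3 : (2 ^ j) ^ 2 ≤ Z0 :=
    (Nat.pow_le_pow_left (mem_filter.1 hσ).2.1 2).trans (h1 σ (hs σ hσ))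
  omega

/-- No small integer polynomial relation. -/
def NoRel (χ : ℝ) (E m : ℕ) : Prop :=
  ∀ u : Fin E → ℤ, (∀ l, |u l| < m) → ∑ l, (u l : ℝ) * χ ^ (l : ℕ) = 0 → u = 0

lemma small_sum {χ : ℝ} {m : ℕ} (hm : (m : ℝ) ≤ χ) (h1 : 1 ≤ χ) (E : ℕ) (u : Fin E → ℤ)
    (hu : ∀ l, |u l| < m) : |∑ l, (u l : ℝ) * χ ^ (l : ℕ)| ≤ χ ^ E - 1 := by
  induction E with
  | zero => simp
  | succ E ih =>
    rw [Fin.sum_univ_castSucc]
    have h2 := ih (fun l => u l.castSucc) fun l => hu _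
    have h3 : |(u (Fin.last E) : ℝ)| ≤ χ - 1 := by
      have : |u (Fin.last E)| + 1 ≤ m := hu _
      have h4 : ((|u (Fin.last E)| + 1 : ℤ) : ℝ) ≤ ((m : ℤ) : ℝ) := Int.cast_le.2 this
      push_cast at h4
      linarith
    have h5 : 0 < χ ^ E := by positivity
    simp only [Fin.val_castSucc, Fin.val_last]
    refine (abs_add_le _ _).trans ?_
    rw [abs_mul, abs_of_pos h5, pow_succ]
    nlinarith

lemma norel {χ : ℝ} {m : ℕ} (hm : (m : ℝ) ≤ χ) (h1 : 1 ≤ χ) (E : ℕ) : NoRel χ E m := by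
  induction E with
  | zero => intro u _ _; exact Subsingleton.elim _ _
  | succ E ih =>
    intro u hu h0
    rw [Fin.sum_univ_castSucc] at h0
    simp only [Fin.val_castSucc, Fin.val_last] at h0
    have h2 := small_sum hm h1 E (fun l => u l.castSucc) fun l => hu _
    have h5 : 0 < χ ^ E := by positivity
    have h3 : u (Fin.last E) = 0 := by
      rw [eq_neg_of_add_eq_zero_left h0, abs_neg, abs_mul, abs_of_pos h5] at h2
      have h4 : |(u (Fin.last E) : ℝ)| < 1 := by nlinarith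
      have : |u (Fin.last E)| < 1 := by exact_mod_cast h4
      exact Int.abs_lt_one_iff.1 this
    rw [h3] at h0
    have h6 := ih (fun l => u l.castSucc) (fun l => hu _) (by simpa using h0)
    funext l
    refine Fin.lastCases h3 (fun l => congrFun h6 l) l

/-- Sums of powers of `χ` with digits in `C`. -/
noncomputable def dig (χ : ℝ) (E : ℕ) (C : Finset ℕ) : Finset ℝ :=
  (Fintype.piFinset fun _ : Fin E => C).image fun c => ∑ l : Fin E, (c l : ℝ) * χ ^ (l : ℕ)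

lemma card_dig_le (χ : ℝ) (E : ℕ) (C : Finset ℕ) : #(dig χ E C) ≤ #C ^ E :=
  card_image_le.trans (by simp)

lemma card_dig {χ : ℝ} {E m : ℕ} (h : NoRel χ E m) : #(dig χ E (Icc 1 m)) = m ^ E := by
  rw [dig, card_image_of_injOn]
  · simp
  intro c hc c' hc' e
  have hc1 := fun l => mem_Icc.1 (Fintype.mem_piFinset.1 (mem_coe.1 hc) l)
  have hc2 := fun l => mem_Icc.1 (Fintype.mem_piFinset.1 (mem_coe.1 hc') l)
  have := h (fun l => (c l : ℤ) - c' l) (fun l => by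
    have := hc1 l; have := hc2 l
    rw [abs_lt]; omega) (by
    have e' : ∑ l : Fin E, (c l : ℝ) * χ ^ (l : ℕ) =
      ∑ l : Fin E, (c' l : ℝ) * χ ^ (l : ℕ) := e
    push_cast
    simp only [sub_mul, sum_sub_distrib, e', sub_self])
  funext l
  have h1 : (c l : ℤ) - c' l = 0 := congrFun this l
  omega

lemma dig_smul {V : Type*} [AddCommGroup V] [Module ℝ V] {H : ℕ → Finset V} (hH : Tower H)
    {χ : ℝ} {E m c : ℕ} {w : V} (hw : ∀ l < E, χ ^ l • w ∈ H c) {x : ℝ}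
    (hx : x ∈ dig χ E (Icc 1 m)) : x • w ∈ H (E * (m * c)) := by
  obtain ⟨u, hu, rfl⟩ := mem_image.1 hx
  rw [sum_smul]
  have := hH.sum univ (fun l : Fin E => ((u l : ℝ) * χ ^ (l : ℕ)) • w) (m * c) fun l _ => by
    rw [mul_smul, Nat.cast_smul_eq_nsmul]
    exact hH.mono (Nat.mul_le_mul_right _ (mem_Icc.1 (Fintype.mem_piFinset.1 hu l)).2)
      (hH.nsmul (hw l l.2) _)
  simpa using this

lemma dig_pos {χ : ℝ} (hχ : 0 < χ) {E m : ℕ} (hE : 0 < E) {x : ℝ}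
    (hx : x ∈ dig χ E (Icc 1 m)) : 0 < x := by
  obtain ⟨u, hu, rfl⟩ := mem_image.1 hx
  refine sum_pos (fun l _ => ?_) ⟨⟨0, hE⟩, mem_univ _⟩
  have : 0 < u l := (mem_Icc.1 (Fintype.mem_piFinset.1 hu l)).1
  positivity

lemma dig_add {χ : ℝ} {E m : ℕ} {x y : ℝ} (hx : x ∈ dig χ E (Icc 1 m))
    (hy : y ∈ dig χ E (Icc 1 m)) : x + y ∈ dig χ E (Icc 1 (2 * m)) := by
  obtain ⟨u, hu, rfl⟩ := mem_image.1 hx
  obtain ⟨v, hv, rfl⟩ := mem_image.1 hy
  refine mem_image.2 ⟨fun l => u l + v l, Fintype.mem_piFinset.2 fun l => ?_, ?_⟩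
  · have h1 := mem_Icc.1 (Fintype.mem_piFinset.1 hu l)
    have h2 := mem_Icc.1 (Fintype.mem_piFinset.1 hv l)
    rw [mem_Icc]; omega
  · rw [← sum_add_distrib]
    exact sum_congr rfl fun l _ => by push_cast; ring

lemma xi (d m : ℕ) : ∃ Ξ : Finset ℝ, #Ξ ≤ (2 * m) ^ d * d ∧ ∀ χ, ¬ NoRel χ d m → χ ∈ Ξ := by
  classical
  let p : (Fin d → ℤ) → Polynomial ℝ := fun u => Polynomial.ofFn d fun l => (u l : ℝ)
  refine ⟨(Fintype.piFinset fun _ : Fin d => Ioo (-(m : ℤ)) m).biUnion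
    fun u => (p u).roots.toFinset, ?_, fun χ h => ?_⟩
  · refine (card_biUnion_le_card_mul _ _ d fun u _ => ?_).trans ?_
    · refine (Multiset.toFinset_card_le _).trans ((Polynomial.card_roots' _).trans ?_)
      rcases Nat.eq_zero_or_pos d with rfl | hd
      · simp [p]
      · exact (Polynomial.ofFn_natDegree_lt hd _).le
    · refine Nat.mul_le_mul_right _ ?_
      simp only [Fintype.card_piFinset, prod_const, card_univ, Fintype.card_fin, Int.card_Ioo]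
      exact Nat.pow_le_pow_left (by omega) _
  · simp only [NoRel, not_forall] at h
    obtain ⟨u, hu, h0, hne⟩ := h
    refine mem_biUnion.2 ⟨u, Fintype.mem_piFinset.2 fun l => mem_Ioo.2 (abs_lt.1 (hu l)), ?_⟩
    rw [Multiset.mem_toFinset, Polynomial.mem_roots]
    · rw [Polynomial.IsRoot, ← h0]
      simp only [p, Polynomial.ofFn_eq_sum_monomial, Polynomial.eval_finsetSum,
        Polynomial.eval_monomial]
    · intro hp
      refine hne (funext fun l => ?_)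
      have := Polynomial.ofFn_coeff_eq_val_of_lt (fun l => (u l : ℝ)) l.2
      rw [show Polynomial.ofFn d (fun l => (u l : ℝ)) = 0 from hp] at this
      simpa using this.symm

lemma window (s : ℕ → ℝ) (t ν s0 : ℕ) (hs : StrictMonoOn s (Set.Iic t)) (hν : 1 < ν)
    (h0 : ν ^ 2 ≤ 2 ^ s0) (ht : 2 * ν * s0 + 2 < t) :
    ∃ i j, i < j ∧ j < t ∧ (ν : ℝ) ^ 2 * ((s (i + 1) - s i) * (s (j + 1) - s j)) ≤
      (s j - s i) * (s (j + 1) - s (i + 1)) := by
  classical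
  let δ : ℕ → ℝ := fun i => s (i + 1) - s i
  have hm : ∀ i j, i ≤ j → j ≤ t → s i ≤ s j := fun i j hij hj =>
    hs.monotoneOn (hij.trans hj) hj hij
  have hδ : ∀ i < t, 0 < δ i := fun i hi =>
    sub_pos.2 (hs (show i ≤ t by omega) (show i + 1 ≤ t by omega) (by omega))
  have hν' : (1 : ℝ) < ν := by exact_mod_cast hν
  obtain ⟨i0, hi0, hmin⟩ := (Ico 1 (t - 1)).exists_min_image δ ⟨1, by rw [mem_Ico]; omega⟩
  rw [mem_Ico] at hi0
  have hp := hδ i0 (by omega)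
  by_cases hbig : ∃ l ∈ Ico 1 (t - 1), (ν : ℝ) ^ 2 * δ i0 ≤ δ l
  · obtain ⟨l, hl, hle⟩ := hbig
    rw [mem_Ico] at hl
    rcases lt_trichotomy i0 l with h | h | h
    · refine ⟨i0, l + 1, by omega, by omega, ?_⟩
      have e1 := hm i0 l h.le (by omega)
      have e2 := hm (i0 + 1) (l + 1) (by omega) (by omega)
      have e3 := hδ (l + 1) (by omega)
      simp only [δ] at hle e3 hp
      rw [← mul_assoc]
      exact mul_le_mul (by linarith) (by linarith) e3.le (by nlinarith)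
    · subst h
      have : (1 : ℝ) < (ν : ℝ) ^ 2 := by nlinarith
      nlinarith
    · obtain ⟨l, rfl⟩ : ∃ l', l = l' + 1 := ⟨l - 1, by omega⟩
      refine ⟨l, i0, by omega, by omega, ?_⟩
      have e1 := hm (l + 1) i0 h.le (by omega)
      have e2 := hm (l + 1 + 1) (i0 + 1) (by omega) (by omega)
      have e3 := hδ l (by omega)
      simp only [δ] at hle e3 hp
      rw [mul_left_comm]
      exact mul_le_mul (by linarith) (by linarith) (by positivity) (by linarith)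
  push Not at hbig
  let c : ℕ → ℕ := fun l => Nat.log 2 ⌊δ l / δ i0⌋₊
  have hc : ∀ l ∈ Ico 1 (t - 1), 2 ^ c l * δ i0 ≤ δ l ∧ δ l ≤ 2 * (2 ^ c l * δ i0) ∧
      c l ∈ range s0 := fun l hl => by
    have a1 : 1 ≤ δ l / δ i0 := (one_le_div hp).2 (hmin l hl)
    have a2 : ⌊δ l / δ i0⌋₊ ≠ 0 := (Nat.floor_pos.2 a1).ne'
    have a3 : ((2 ^ c l : ℕ) : ℝ) ≤ δ l / δ i0 :=
      (Nat.cast_le.2 (Nat.pow_log_le_self 2 a2)).trans (Nat.floor_le (by linarith))
    have a4 : δ l / δ i0 < ((2 ^ (c l + 1) : ℕ) : ℝ) :=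
      (Nat.floor_lt (by linarith)).1 (Nat.lt_pow_succ_log_self one_lt_two _)
    have a5 : δ l / δ i0 < ((2 ^ s0 : ℕ) : ℝ) := by
      rw [div_lt_iff₀ hp]
      have : ((ν ^ 2 : ℕ) : ℝ) ≤ ((2 ^ s0 : ℕ) : ℝ) := Nat.cast_le.2 h0
      rw [Nat.cast_pow] at this
      nlinarith [hbig l hl]
    rw [le_div_iff₀ hp] at a3
    rw [div_lt_iff₀ hp] at a4
    push_cast at a3 a4
    refine ⟨a3, by rw [pow_succ] at a4; linarith, mem_range.2 ?_⟩
    exact Nat.log_lt_of_lt_pow a2 ((Nat.floor_lt (by linarith)).2 a5)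
  obtain ⟨y, -, hy⟩ := exists_lt_card_fiber_of_mul_lt_card_of_maps_to (n := 2 * ν)
    (fun l hl => (hc l hl).2.2) (by
      rw [card_range, Nat.card_Ico, mul_comm s0]; omega)
  set C := (Ico 1 (t - 1)).filter fun l => c l = y with hC
  have hCn : C.Nonempty := card_pos.1 (by omega)
  set x : ℝ := 2 ^ y * δ i0 with hx
  have hx0 : 0 < x := by positivity
  have hCx : ∀ l ∈ C, x ≤ δ l ∧ δ l ≤ 2 * x ∧ l < t - 1 := fun l hl => by
    rw [hC, mem_filter] at hl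
    have := hc l hl.1
    rw [hl.2] at this
    exact ⟨this.1, this.2.1, (mem_Ico.1 hl.1).2⟩
  have key : ∀ a b z, a ≤ b → b ≤ t → C.erase z ⊆ Ico a b → z ∈ C → 2 * ν * x ≤ s b - s a :=
    fun a b z hab hb hsub hz => by
    rw [← sum_Ico_sub s hab]
    have b1 : (2 * ν : ℝ) ≤ #(C.erase z) := by
      rw [card_erase_of_mem hz]; exact_mod_cast (by omega)
    calc 2 * ν * x ≤ #(C.erase z) * x := by gcongr
      _ = ∑ _l ∈ C.erase z, x := by simp
      _ ≤ ∑ l ∈ C.erase z, δ l := sum_le_sum fun l hl => (hCx l (mem_of_mem_erase hl)).1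
      _ ≤ _ := sum_le_sum_of_subset_of_nonneg hsub fun l hl _ =>
          (hδ l (by rw [mem_Ico] at hl; omega)).le
  have hi := C.min'_mem hCn
  have hj := C.max'_mem hCn
  have hij : C.min' hCn < C.max' hCn := C.min'_lt_max'_of_card (by omega)
  have ej := hCx _ hj
  have ei := hCx _ hi
  refine ⟨_, _, hij, by omega, ?_⟩
  have k1 := key (C.min' hCn) (C.max' hCn) _ hij.le (by omega) (fun l hl => by
    rw [mem_erase] at hl
    have := C.min'_le l hl.2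
    have := C.le_max' l hl.2
    rw [mem_Ico]; omega) hj
  have k2 := key (C.min' hCn + 1) (C.max' hCn + 1) _ (by omega) (by omega) (fun l hl => by
    rw [mem_erase] at hl
    have := C.min'_le l hl.2
    have := C.le_max' l hl.2
    rw [mem_Ico]; omega) hi
  have k3 : δ (C.min' hCn) * δ (C.max' hCn) ≤ (2 * x) * (2 * x) :=
    mul_le_mul ei.2.1 ej.2.1 (by linarith [ej.1]) (by linarith)
  calc _ ≤ (ν : ℝ) ^ 2 * ((2 * x) * (2 * x)) := mul_le_mul_of_nonneg_left k3 (by positivity)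
    _ = (2 * ν * x) * (2 * ν * x) := by ring
    _ ≤ _ := mul_le_mul k1 k2 (by positivity) (le_trans (by positivity) k1)

end SDL

end MrgPart0

-- ======== part 1: formerly Pool.Agent.MP_ddf486_co.Line
section MrgPart1

/-! Dilation symmetries of rich lines through the origin in a tower of polynomial growth. -/

namespace SDL
open Finset

variable {H : ℕ → Finset (ℝ × ℝ)}

/-- Points of a line that stay on it after a dilation. -/
noncomputable def Wset (H : ℕ → Finset (ℝ × ℝ)) (σ χ : ℝ) : Finset ℝ :=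
  (ln (H 2) σ).filter fun x => χ * x ∈ ln (H 2) σ

open Classical in
/-- Positive points of a line that stay on it after several dilations. -/
noncomputable def Dst (H : ℕ → Finset (ℝ × ℝ)) (σ χ : ℝ) (i : ℕ) : Finset ℝ :=
  (lp (H 4) σ).filter fun x => ∀ l ≤ i, χ ^ l * x ∈ ln (H 4) σ

lemma mem_Dst {σ χ x : ℝ} {i : ℕ} :
    x ∈ Dst H σ χ i ↔ x ∈ lp (H 4) σ ∧ ∀ l ≤ i, χ ^ l * x ∈ ln (H 4) σ := by
  rw [Dst, mem_filter]

lemma frame {p p' : ℝ} (q : ℝ) (hp : p ≠ p') (F F' Y : Finset ℝ) (e : ℝ → ℝ)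
    (Z : Finset (ℝ × ℝ))
    (h : ∀ γ ∈ Y, ∀ x ∈ F, ∀ y ∈ F', (e γ + (x + y), q * e γ + (p * x + p' * y)) ∈ Z) :
    ∃ Y' ⊆ Y, #Y * (#F * #F') ≤ #Z * #Y' ∧ ∀ γ ∈ Y', ∀ γ' ∈ Y',
      (∃ x ∈ F, ∃ x' ∈ F, (p' - q) * (e γ - e γ') = (p' - p) * (x - x')) ∧
      (∃ y ∈ F', ∃ y' ∈ F', (q - p) * (e γ - e γ') = (p' - p) * (y - y')) := by
  obtain ⟨z, hz⟩ := pig Y (fun γ => (e γ, q * e γ)) (grid p p' F F') Z (by
    intro γ hγ u hu
    obtain ⟨x, hx, y, hy, rfl⟩ := mem_grid.1 hu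
    exact h γ hγ x hx y hy)
  rw [card_grid hp] at hz
  refine ⟨_, filter_subset _ _, hz, fun γ hγ γ' hγ' => ?_⟩
  obtain ⟨x, hx, y, hy, e1⟩ := mem_grid.1 (mem_filter.1 hγ).2
  obtain ⟨x', hx', y', hy', e2⟩ := mem_grid.1 (mem_filter.1 hγ').2
  have a1 : x + y = z.1 - e γ := congrArg Prod.fst e1
  have a2 : p * x + p' * y = z.2 - q * e γ := congrArg Prod.snd e1
  have a3 : x' + y' = z.1 - e γ' := congrArg Prod.fst e2
  have a4 : p * x' + p' * y' = z.2 - q * e γ' := congrArg Prod.snd e2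
  exact ⟨⟨x', hx', x, hx, by linear_combination p' * a1 - p' * a3 - a2 + a4⟩,
    ⟨y', hy', y, hy, by linear_combination a2 - a4 - p * a1 + p * a3⟩⟩

lemma cancel_sq {a k G z y u v : ℕ} (hk : 0 < k) (hu : k ≤ u) (hv : k ≤ v)
    (h : a * (u * v) ≤ z * y) (hz : z ≤ G * k ^ 2) : a ≤ G * y := by
  refine Nat.le_of_mul_le_mul_right (c := k * k) ?_ (Nat.mul_pos hk hk)
  calc a * (k * k) ≤ a * (u * v) := Nat.mul_le_mul_left _ (Nat.mul_le_mul hu hv)
    _ ≤ z * y := h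
    _ ≤ G * k ^ 2 * y := Nat.mul_le_mul_right _ hz
    _ = _ := by ring

lemma good (hH : Tower H) (s : ℕ → ℝ) (t ν s0 k G : ℕ) (hs : StrictMonoOn s (Set.Iic t))
    (hν : 1 < ν) (h0 : ν ^ 2 ≤ 2 ^ s0) (ht : 2 * ν * s0 + 2 < t) (hk0 : 0 < k)
    (hk : ∀ i ≤ t, k ≤ #(lp (H 1) (s i))) (hc : #(cone (H 4) (s 0) (s t)) ≤ G * k ^ 2) :
    ∃ j ≤ t, ∃ χ : ℝ, (ν : ℝ) ^ 2 ≤ χ ∧ k ≤ G ^ 2 * #(Wset H (s j) χ) := by
  obtain ⟨i, j, hij, hj, hw⟩ := window s t ν s0 hs hν h0 ht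
  have hm : ∀ i j, i ≤ j → j ≤ t → s i ≤ s j := fun i j hij hj =>
    hs.monotoneOn (hij.trans hj) hj hij
  have hpp : s i < s (i + 1) := hs (show i ≤ t by omega) (show i + 1 ≤ t by omega) (by omega)
  have hqq : s j < s (j + 1) := hs (show j ≤ t by omega) (show j + 1 ≤ t by omega) (by omega)
  have hpq : s (i + 1) ≤ s j := hm _ _ hij hj.le
  have hl : s 0 ≤ s i := hm _ _ (Nat.zero_le _) (by omega)
  have hu : s (j + 1) ≤ s t := hm _ _ hj le_rfl
  have hki := hk i (by omega)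
  have hki' := hk (i + 1) (by omega)
  have hkj := hk j hj.le
  have hkj' := hk (j + 1) hj
  refine ⟨j, hj.le, ?_⟩
  generalize s i = p at *
  generalize s (i + 1) = p' at *
  generalize s j = q at *
  generalize s (j + 1) = q' at *
  obtain ⟨Y1, hY1, c1, r1⟩ := frame q hpp.ne (lp (H 1) p) (lp (H 1) p') (lp (H 1) q) id
    (cone (H 4) (s 0) (s t)) (by
      intro γ hγ x hx y hy
      rw [mem_lp] at hγ hx hy
      refine mem_filter.2 ⟨hH.add' hγ.1 (hH.add _ _ _ _ hx.1 hy.1) (by norm_num), ?_, ?_, ?_⟩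
      · dsimp only [id]; linarith [hγ.2, hx.2, hy.2]
      · dsimp only [id]
        nlinarith [mul_nonneg (sub_nonneg.2 hl) hx.2.le,
          mul_nonneg (show 0 ≤ p' - s 0 by linarith) hy.2.le,
          mul_nonneg (show 0 ≤ q - s 0 by linarith) hγ.2.le]
      · dsimp only [id]
        nlinarith [mul_nonneg (show 0 ≤ s t - p by linarith) hx.2.le,
          mul_nonneg (show 0 ≤ s t - p' by linarith) hy.2.le,
          mul_nonneg (show 0 ≤ s t - q by linarith) hγ.2.le])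
  have d1 : k ≤ G * #Y1 := hkj.trans (cancel_sq hk0 hki hki' c1 hc)
  have hY1n : Y1.Nonempty := card_pos.1 (Nat.pos_of_mul_pos_left (hk0.trans_le d1))
  set γ0 := Y1.min' hY1n with hγ0
  have hd : 0 < p' - p := sub_pos.2 hpp
  have hd' : 0 < q' - q := sub_pos.2 hqq
  set μ := (q - p) / (p' - p) with hμ
  have hμ0 : 0 ≤ μ := div_nonneg (by linarith) hd.le
  obtain ⟨Y2, hY2, c2, r2⟩ := frame p' hqq.ne (lp (H 1) q) (lp (H 1) q') Y1
    (fun γ => μ * (γ - γ0)) (cone (H 4) (s 0) (s t)) (by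
      intro γ hγ x hx y hy
      rw [mem_lp] at hx hy
      obtain ⟨-, v, hv, v', hv', e⟩ := r1 γ hγ γ0 (Y1.min'_mem hY1n)
      have e' : μ * (γ - γ0) = v - v' := by
        rw [hμ, div_mul_eq_mul_div, div_eq_iff hd.ne']
        simp only [id] at e
        linarith
      have e0 : 0 ≤ μ * (γ - γ0) := mul_nonneg hμ0 (sub_nonneg.2 (Y1.min'_le γ hγ))
      have e2 : μ * (γ - γ0) ∈ ln (H 2) p' := by
        rw [e']
        exact (hH.line p').sub' (mem_filter.1 hv).1 (mem_filter.1 hv').1 le_rfl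
      rw [mem_ln] at e2
      generalize μ * (γ - γ0) = β at *
      refine mem_filter.2 ⟨hH.add' e2 (hH.add _ _ _ _ hx.1 hy.1) (by norm_num), ?_, ?_, ?_⟩
      · dsimp only; linarith [hx.2, hy.2]
      · dsimp only
        nlinarith [mul_nonneg (show 0 ≤ q - s 0 by linarith) hx.2.le,
          mul_nonneg (show 0 ≤ q' - s 0 by linarith) hy.2.le,
          mul_nonneg (show 0 ≤ p' - s 0 by linarith) e0]
      · dsimp only
        nlinarith [mul_nonneg (show 0 ≤ s t - q by linarith) hx.2.le,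
          mul_nonneg (show 0 ≤ s t - q' by linarith) hy.2.le,
          mul_nonneg (show 0 ≤ s t - p' by linarith) e0])
  have d2 : #Y1 ≤ G * #Y2 := cancel_sq hk0 hkj hkj' c2 hc
  have d3 : k ≤ G ^ 2 * #Y2 :=
    calc k ≤ G * #Y1 := d1
      _ ≤ G * (G * #Y2) := Nat.mul_le_mul_left _ d2
      _ = _ := by ring
  obtain ⟨γ1, hγ1⟩ : Y2.Nonempty := card_pos.1 (Nat.pos_of_mul_pos_left (hk0.trans_le d3))
  refine ⟨μ * (q' - p') / (q' - q), ?_, d3.trans (Nat.mul_le_mul_left _ ?_)⟩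
  · rw [le_div_iff₀ hd', hμ, div_mul_eq_mul_div, le_div_iff₀ hd]
    linarith
  · refine card_le_card_of_injOn (fun γ => γ - γ1) (fun γ hγ => ?_)
      (fun x _ y _ h => sub_left_injective h)
    have hγ' : γ ∈ Y2 := hγ
    obtain ⟨⟨x, hx, x', hx', e⟩, -⟩ := r2 γ hγ' γ1 hγ1
    have e' : μ * (q' - p') / (q' - q) * (γ - γ1) = x - x' := by
      rw [div_mul_eq_mul_div, div_eq_iff hd'.ne']
      linarith
    refine mem_coe.2 (mem_filter.2 ⟨?_, ?_⟩)
    · exact (hH.line q).sub' (mem_filter.1 (hY1 (hY2 hγ'))).1 (mem_filter.1 (hY1 (hY2 hγ1))).1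
        le_rfl
    · rw [e']
      exact (hH.line q).sub' (mem_filter.1 hx).1 (mem_filter.1 hx').1 le_rfl

lemma dstar (hH : Tower H) (σ χ : ℝ) (G k i : ℕ) (hk : k ≤ G * #(Wset H σ χ))
    (h6 : #(ln (H 6) σ) ≤ G * #(Wset H σ χ)) (hG : 0 < G) (hbig : 2 * G ^ (i + 1) ≤ k) :
    k ≤ 2 * G ^ (i + 1) * #(Dst H σ χ i) := by
  obtain ⟨Y, hYW, hc, hr⟩ := chain (hH.line σ) χ (Wset H σ χ) 2 G
    (fun w hw => (mem_filter.1 hw).1) (fun w hw => (mem_filter.1 hw).2) h6 i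
  have h1 : k ≤ G ^ (i + 1) * #Y :=
    calc k ≤ G * #(Wset H σ χ) := hk
      _ ≤ G * (G ^ i * #Y) := Nat.mul_le_mul_left _ hc
      _ = _ := by ring
  have h2 : 2 ≤ #Y := by
    refine Nat.le_of_mul_le_mul_left (c := G ^ (i + 1)) ?_ (pow_pos hG _)
    omega
  have hn : Y.Nonempty := card_pos.1 (by omega)
  have h3 : #(Y.erase (Y.min' hn)) ≤ #(Dst H σ χ i) := by
    refine card_le_card_of_injOn (fun y => y - Y.min' hn) (fun y hy => ?_)
      (fun x _ y _ h => sub_left_injective h)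
    have hy' := mem_erase.1 (mem_coe.1 hy)
    have a : ∀ l ≤ i, χ ^ l * (y - Y.min' hn) ∈ ln (H 4) σ := fun l hl => by
      obtain ⟨w, hw, w', hw', e⟩ := hr y hy'.2 _ (Y.min'_mem hn) l hl
      rw [smul_eq_mul] at e
      rw [e]
      exact (hH.line σ).sub' (mem_filter.1 hw).1 (mem_filter.1 hw').1 le_rfl
    refine mem_coe.2 (mem_Dst.2 ⟨mem_filter.2 ⟨by simpa using a 0 (Nat.zero_le _), ?_⟩, a⟩)
    exact sub_pos.2 (lt_of_le_of_ne (Y.min'_le y hy'.2) hy'.1.symm)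
  rw [card_erase_of_mem (Y.min'_mem hn)] at h3
  calc k ≤ G ^ (i + 1) * #Y := h1
    _ ≤ G ^ (i + 1) * (2 * #(Dst H σ χ i)) := Nat.mul_le_mul_left _ (by omega)
    _ = _ := by ring

lemma fib_le (S : Finset (ℝ × ℝ)) (hS : ∀ p ∈ S, 0 < p.1) (ρ : ℝ) :
    #(S.filter fun p => p.2 / p.1 = ρ) ≤ #(lp S ρ) := by
  have key : ∀ p ∈ S.filter fun p => p.2 / p.1 = ρ, p = (p.1, ρ * p.1) := fun p hp => by
    rw [mem_filter] at hp
    rw [← hp.2, div_mul_cancel₀ _ (hS p hp.1).ne']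
  refine card_le_card_of_injOn Prod.fst (fun p hp => ?_) (fun p hp p' hp' h => ?_)
  · have := key p hp
    have h1 := (mem_filter.1 (mem_coe.1 hp)).1
    exact mem_coe.2 (mem_lp.2 ⟨this ▸ h1, hS p h1⟩)
  · rw [key p hp, key p' hp', h]

lemma rel (hH : Tower H) (σ χ : ℝ) (hχ : 0 < χ) (d m i T : ℕ) (hd : 0 < d) (hi : d ≤ i + 1)
    (hN : NoRel χ d m) (hT : #(Dst H σ χ i) < 2 ^ T) :
    (m ^ d * #(Dst H σ χ i)) ^ 2 ≤
      #(lp (H (d * (m * 4))) σ) * (T * (12 * ((2 * m) ^ d * #(ln (H 8) σ)))) := by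
  set D := Dst H σ χ i with hD
  set P := dig χ d (Icc 1 m) with hP
  have hPp : ∀ x ∈ P, 0 < x := fun x hx => dig_pos hχ hd hx
  have hDp : ∀ y ∈ D, 0 < y := fun y hy => (mem_lp.1 (mem_Dst.1 hy).1).2
  have hDl : ∀ y ∈ D, y ∈ ln (H 4) σ := fun y hy => (mem_filter.1 (mem_Dst.1 hy).1).1
  have h1 := cs (P ×ˢ D) fun p => p.1 * p.2
  rw [card_product, hP, card_dig hN, ← hP] at h1
  refine h1.trans (Nat.mul_le_mul (card_le_card fun z hz => ?_) ?_)
  · obtain ⟨⟨x, y⟩, hp, rfl⟩ := mem_image.1 hz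
    rw [mem_product] at hp
    refine mem_filter.2 ⟨?_, mul_pos (hPp x hp.1) (hDp y hp.2)⟩
    exact dig_smul (hH.line σ) (w := y) (fun l hl => (mem_Dst.1 hp.2).2 l (by omega)) hp.1
  have h2 : ep (P ×ˢ D) (fun p => p.1 * p.2) ≤ ep (P ×ˢ D) fun p => p.2 / p.1 := by
    refine card_le_card_of_injOn (fun q => ((q.2.1, q.1.2), (q.1.1, q.2.2))) ?_ ?_
    · rintro ⟨⟨x, y⟩, ⟨x', y'⟩⟩ hq
      simp only [coe_filter, mem_product, Set.mem_ofPred_eq] at hq ⊢
      obtain ⟨⟨⟨a1, a2⟩, a3, a4⟩, e⟩ := hq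
      refine ⟨⟨⟨a3, a2⟩, a1, a4⟩, ?_⟩
      rw [div_eq_div_iff (hPp _ a3).ne' (hPp _ a1).ne']
      linarith
    · rintro ⟨⟨x, y⟩, ⟨x', y'⟩⟩ _ ⟨⟨u, v⟩, ⟨u', v'⟩⟩ _ e
      simp only [Prod.mk.injEq] at e ⊢
      tauto
  refine h2.trans ?_
  rw [ep_eq]
  set S := (P ×ˢ D).image fun p => p.2 / p.1 with hS
  have hSp : ∀ ρ ∈ S, 0 < ρ := fun ρ hρ => by
    obtain ⟨p, hp, rfl⟩ := mem_image.1 hρ
    rw [mem_product] at hp
    exact div_pos (hDp _ hp.2) (hPp _ hp.1)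
  have b1 : ∀ ρ ∈ S, #(lp (P ×ˢ D) ρ) ≤ #D := fun ρ hρ =>
    card_le_card_of_injOn (fun x => ρ * x)
      (fun x hx => (mem_product.1 (mem_lp.1 (mem_coe.1 hx)).1).2)
      (fun x _ y _ h => mul_left_cancel₀ (hSp ρ hρ).ne' h)
  have b2 : ∀ ρ, #(lp (P ×ˢ D) ρ) ≤ (2 * m) ^ d := fun ρ => by
    have : #(lp (P ×ˢ D) ρ) ≤ #P := card_le_card fun x hx => (mem_product.1 (mem_lp.1 hx).1).1
    rw [hP, card_dig hN] at this
    exact this.trans (Nat.pow_le_pow_left (by omega) _)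
  have b3 : #D ≤ #(ln (H 8) σ) :=
    card_le_card fun y hy => (hH.line σ).mono (show 4 ≤ 8 by norm_num) (hDl y hy)
  calc _ ≤ ∑ ρ ∈ S, #(lp (P ×ˢ D) ρ) ^ 2 := sum_le_sum fun ρ _ =>
        Nat.pow_le_pow_left (fib_le _ (fun p hp => hPp _ (mem_product.1 hp).1) ρ) 2
    _ ≤ _ := dy S (fun ρ => #(lp (P ×ˢ D) ρ)) T fun ρ hρ => (b1 ρ hρ).trans_lt hT
    _ ≤ ∑ _j ∈ range T, 12 * ((2 * m) ^ d * #(ln (H 8) σ)) := sum_le_sum fun j _ => by
        have := cls_le S (fun ρ => lp (P ×ˢ D) ρ) (dig χ d (Icc 1 (2 * m)) ×ˢ ln (H 8) σ)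
          ((2 * m) ^ d * #(ln (H 8) σ)) (fun ρ _ x hx => (mem_lp.1 hx).2)
          (fun ρ _ τ _ x hx y hy => by
            have c1 := mem_product.1 (mem_lp.1 hx).1
            have c2 := mem_product.1 (mem_lp.1 hy).1
            exact mem_product.2 ⟨dig_add c1.1 c2.1,
              (hH.line σ).add 4 4 _ _ (hDl _ c1.2) (hDl _ c2.2)⟩)
          (by
            rw [card_product]
            exact Nat.mul_le_mul_right _ ((card_dig_le _ _ _).trans (by simp)))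
          (fun ρ hρ => by
            rw [sq]; exact Nat.mul_le_mul (b2 ρ) ((b1 ρ hρ).trans b3)) j
        omega
    _ = _ := by simp

lemma rel_num {Λ G g k D h : ℕ} (hk : 0 < k) (hG : 2 ≤ G) (h1 : 8 * (2 * g + 1) ≤ G)
    (h2 : 96 * Λ ^ 5 * 2 ^ (2 * g + 1) ≤ G) (hD : k ≤ 2 * G ^ (2 * g + 1) * D)
    (hh : h ≤ Λ * (2 * ((2 * g + 1) * (G ^ 5 * 4))) ^ g * k)
    (hr : ((G ^ 5) ^ (2 * g + 1) * D) ^ 2 ≤
      h * (2 * Λ * (12 * ((2 * G ^ 5) ^ (2 * g + 1) * (Λ ^ 3 * k))))) : False := by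
  have a1 : (2 * ((2 * g + 1) * (G ^ 5 * 4))) ^ g ≤ G ^ (6 * g) := by
    rw [pow_mul]
    refine Nat.pow_le_pow_left ?_ _
    calc _ = 8 * (2 * g + 1) * G ^ 5 := by ring
      _ ≤ G * G ^ 5 := Nat.mul_le_mul_right _ h1
      _ = _ := by ring
  have a2 : G ^ (20 * g + 10) * k ^ 2 ≤ G ^ (20 * g + 8) * k ^ 2 :=
    calc G ^ (20 * g + 10) * k ^ 2 ≤ G ^ (20 * g + 10) * (2 * G ^ (2 * g + 1) * D) ^ 2 := by
          gcongr
      _ = 4 * G ^ (4 * g + 2) * ((G ^ 5) ^ (2 * g + 1) * D) ^ 2 := by ring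
      _ ≤ 4 * G ^ (4 * g + 2) * ((Λ * G ^ (6 * g) * k) *
          (2 * Λ * (12 * ((2 * G ^ 5) ^ (2 * g + 1) * (Λ ^ 3 * k))))) := by
          refine Nat.mul_le_mul_left _ (hr.trans (Nat.mul_le_mul_right _ (hh.trans ?_)))
          gcongr
      _ = (96 * Λ ^ 5 * 2 ^ (2 * g + 1)) * (G ^ (20 * g + 7) * k ^ 2) := by
          rw [mul_pow]; ring
      _ ≤ G * (G ^ (20 * g + 7) * k ^ 2) := Nat.mul_le_mul_right _ h2
      _ = _ := by ring
  have a3 := Nat.le_of_mul_le_mul_right a2 (pow_pos hk 2)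
  have a4 := (Nat.pow_le_pow_iff_right (by omega)).1 a3
  omega

lemma heavy (hH : Tower H) {g N Λ R k : ℕ} (hg : ∀ m, 1 ≤ m → #(H m) ≤ m ^ g * N)
    (S : Finset ℝ) (m : ℕ) (hm : 1 ≤ m) (hk : 0 < k) (hΛ : 0 < Λ) (hN : N ≤ Λ * (R * k ^ 2)) :
    Λ * #(S.filter fun σ => Λ * (2 * m) ^ g * k ≤ #(lp (H m) σ)) ≤ 2 * R + Λ := by
  have h1 := sol (S.filter fun σ => Λ * (2 * m) ^ g * k ≤ #(lp (H m) σ)) (fun σ => lp (H m) σ)
    (H (2 * m)) (Λ * (2 * m) ^ g * k) 1 (fun σ _ x hx => (mem_lp.1 hx).2)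
    (fun σ hσ => by simpa using (mem_filter.1 hσ).2)
    (fun σ _ τ _ x hx y hy => hH.add' (mem_lp.1 hx).1 (mem_lp.1 hy).1 (by omega))
  have h2 := hg (2 * m) (by omega)
  have h3 : 0 < (2 * m) ^ g := by positivity
  generalize #(S.filter fun σ => Λ * (2 * m) ^ g * k ≤ #(lp (H m) σ)) = r at *
  generalize (2 * m) ^ g = u at *
  refine Nat.le_of_mul_le_mul_right (c := Λ * u ^ 2 * k ^ 2) ?_ (by positivity)
  have h4 : #(H (2 * m)) ≤ R * (Λ * u ^ 2 * k ^ 2) :=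
    calc _ ≤ u * N := h2
      _ ≤ u ^ 2 * (Λ * (R * k ^ 2)) := Nat.mul_le_mul (by nlinarith) hN
      _ = _ := by ring
  calc _ = r * (Λ * u * k) ^ 2 := by ring
    _ ≤ 2 * (1 ^ 2 * #(H (2 * m))) + (Λ * u * k) ^ 2 := h1
    _ ≤ 2 * (1 ^ 2 * (R * (Λ * u ^ 2 * k ^ 2))) + (Λ * u * k) ^ 2 := by gcongr
    _ = _ := by ring

/-- Numerical constraints on the parameters. -/
structure Par (g N Λ b : ℕ) : Prop where
  h64 : 64 ^ g ≤ Λ
  h16 : 16 ≤ Λ
  b1 : 1 ≤ b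
  bΛ : b ≤ Λ
  N2 : N < 2 ^ Λ

lemma Par.pow_le {g N Λ b : ℕ} (p : Par g N Λ b) {m : ℕ} (hm : m ≤ 64) : m ^ g ≤ Λ :=
  (Nat.pow_le_pow_left hm g).trans p.h64

lemma Par.mono {g N Λ b : ℕ} (p : Par g N Λ b) {u v : ℕ} (h : u ≤ v) : Λ ^ u ≤ Λ ^ v :=
  Nat.pow_le_pow_right (by have := p.h16; omega) h

open Classical in
lemma many_good (hH : Tower H) {g N Λ b k : ℕ} (hg : ∀ m, 1 ≤ m → #(H m) ≤ m ^ g * N)
    (p : Par g N Λ b) (S : Finset ℝ) (hk0 : 0 < k) (hk : ∀ σ ∈ S, k ≤ #(lp (H 1) σ))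
    (hN : N ≤ Λ * (#S * k ^ 2)) (hR : 16 * Λ ^ (b + 3) ≤ #S) (m : ℕ) (hm : 1 ≤ m) :
    #S ≤ 4 * #(S.filter fun σ => #(lp (H 8) σ) < Λ * (2 * 8) ^ g * k ∧
      #(lp (H m) σ) < Λ * (2 * m) ^ g * k ∧
      ∃ χ : ℝ, ((Λ ^ b : ℕ) : ℝ) ^ 2 ≤ χ ∧ k ≤ (Λ ^ (b + 6)) ^ 2 * #(Wset H σ χ)) := by
  have h16 := p.h16
  have hΛ : 0 < Λ := by omega
  have a1 := heavy hH hg S 8 (by norm_num) hk0 hΛ hN
  have a2 := heavy hH hg S m hm hk0 hΛ hN
  set Bad := S.filter fun σ =>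
    ¬ ∃ χ : ℝ, ((Λ ^ b : ℕ) : ℝ) ^ 2 ≤ χ ∧ k ≤ (Λ ^ (b + 6)) ^ 2 * #(Wset H σ χ) with hBad
  have hν : 1 < Λ ^ b := Nat.one_lt_pow (by have := p.b1; omega) (by omega)
  have a3 := blocks Bad (H 4) (Λ ^ (b + 3)) (#Bad / (Λ ^ (b + 3) + 1)) (Λ ^ (b + 6) * k ^ 2) 1
    (fun s hs hm => by
      by_contra hc
      obtain ⟨j, hj, hχ⟩ := good hH s (Λ ^ (b + 3)) (Λ ^ b) (Λ * (b * 2)) k (Λ ^ (b + 6)) hs hν
        (by rw [← pow_mul, pow_mul 2]; exact Nat.pow_le_pow_left Nat.lt_two_pow_self.le _)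
        (by
          have e1 : Λ ^ b * (Λ * b) ≤ Λ ^ b * (Λ * Λ) := by gcongr; exact p.bΛ
          have e2 : Λ ^ b * (Λ * Λ) * 16 ≤ Λ ^ b * (Λ * Λ) * Λ := by gcongr
          have e3 : 0 < Λ ^ b * (Λ * Λ) := by positivity
          have e4 : Λ ^ (b + 3) = Λ ^ b * (Λ * Λ) * Λ := by ring
          have e5 : 2 * Λ ^ b * (Λ * (b * 2)) = 4 * (Λ ^ b * (Λ * b)) := by ring
          omega)
        hk0 (fun i hi => hk _ (mem_filter.1 (hm i hi)).1) (by omega)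
      exact (mem_filter.1 (hm j hj)).2 hχ) (Nat.div_mul_le_self _ _)
  have a4 : #Bad < (#Bad / (Λ ^ (b + 3) + 1) + 1) * (Λ ^ (b + 3) + 1) := by
    rw [mul_comm]; exact Nat.lt_mul_div_succ _ (by omega)
  generalize #Bad / (Λ ^ (b + 3) + 1) = nb at a3 a4
  have a5 : nb * (Λ * Λ ^ (b + 3)) ≤ #S := by
    refine Nat.le_of_mul_le_mul_right (c := Λ ^ 2 * k ^ 2) ?_ (by positivity)
    calc _ = nb * (Λ ^ (b + 6) * k ^ 2) := by ring
      _ ≤ 4 ^ g * N := by have := hg 4 (by norm_num); omega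
      _ ≤ Λ * (Λ * (#S * k ^ 2)) := Nat.mul_le_mul (p.pow_le (by norm_num)) hN
      _ = _ := by ring
  set Good := S.filter fun σ => #(lp (H 8) σ) < Λ * (2 * 8) ^ g * k ∧
      #(lp (H m) σ) < Λ * (2 * m) ^ g * k ∧
      ∃ χ : ℝ, ((Λ ^ b : ℕ) : ℝ) ^ 2 ≤ χ ∧ k ≤ (Λ ^ (b + 6)) ^ 2 * #(Wset H σ χ) with hGood
  set A := S.filter fun σ => Λ * (2 * 8) ^ g * k ≤ #(lp (H 8) σ) with hA
  set B := S.filter fun σ => Λ * (2 * m) ^ g * k ≤ #(lp (H m) σ) with hB
  have a6 : #S ≤ #Good + #Bad + #A + #B := by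
    have : S ⊆ Good ∪ Bad ∪ A ∪ B := fun σ hσ => by
      simp only [hGood, hBad, hA, hB, mem_union, mem_filter, hσ, true_and, ← not_le]
      generalize (∃ χ : ℝ, _) = P
      tauto
    refine (card_le_card this).trans ((card_union_le _ _).trans ?_)
    have := card_union_le (Good ∪ Bad) A
    have := card_union_le Good Bad
    omega
  have ht : 1 ≤ Λ ^ (b + 3) := Nat.one_le_pow _ _ hΛ
  generalize Λ ^ (b + 3) = t at *
  refine Nat.le_of_mul_le_mul_left (c := Λ) ?_ hΛ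
  have c1 : Λ * #S ≤ Λ * #Good + Λ * #Bad + Λ * #A + Λ * #B := by
    nlinarith [Nat.mul_le_mul_left Λ a6]
  have c2 : Λ * #Bad ≤ 2 * (nb * (Λ * t)) + 2 * (Λ * t) :=
    calc Λ * #Bad ≤ Λ * ((nb + 1) * (2 * t)) :=
          Nat.mul_le_mul_left _ (a4.le.trans (Nat.mul_le_mul_left _ (by omega)))
      _ = _ := by ring
  have c3 : 16 * (Λ * t) ≤ Λ * #S := by nlinarith [Nat.mul_le_mul_left Λ hR]
  have c4 : 16 * #S ≤ Λ * #S := Nat.mul_le_mul_right _ h16
  have c5 : Λ ≤ Λ * t := Nat.le_mul_of_pos_right _ ht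
  have c6 : Λ * (4 * #Good) = 4 * (Λ * #Good) := by ring
  omega

lemma same_chi (hH : Tower H) {g N Λ b k : ℕ} (hg : ∀ m, 1 ≤ m → #(H m) ≤ m ^ g * N)
    (p : Par g N Λ b) (S : Finset ℝ) (hk : ∀ σ ∈ S, k ≤ #(lp (H 1) σ))
    (hN : N ≤ Λ * (#S * k ^ 2)) {G I : ℕ} (hG : G = Λ ^ (2 * b + 15)) (hR : G ≤ #S)
    (hI : 2 * g ≤ I) (hbig : 2 * G ^ (I + 1) ≤ k) :
    ∃ χ : ℝ, ((Λ ^ (2 * b) : ℕ) : ℝ) ≤ χ ∧ ∃ S' : Finset ℝ, #S ≤ 4 * (G ^ (12 * g + 6) * #S') ∧
      ∀ σ ∈ S', k ≤ 2 * G ^ (I + 1) * #(Dst H σ χ I) := by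
  classical
  have h16 := p.h16
  have hΛ : 0 < Λ := by omega
  have hG0 : 0 < G := by rw [hG]; positivity
  have hk0 : 0 < k := lt_of_lt_of_le (by positivity) hbig
  have hGΛ : ∀ u c, u ≤ 16 ^ c → ∀ e, c + e ≤ 2 * b + 15 → u * Λ ^ e ≤ G := fun u c hu e he =>
    calc u * Λ ^ e ≤ Λ ^ c * Λ ^ e :=
          Nat.mul_le_mul_right _ (hu.trans (Nat.pow_le_pow_left h16 _))
      _ = Λ ^ (c + e) := by ring
      _ ≤ G := hG ▸ p.mono he
  have h4 : 2 ^ (2 * g + 1) ≤ 2 * Λ := by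
    have := p.pow_le (show 4 ≤ 64 by norm_num)
    rw [pow_succ, pow_mul, show 2 ^ 2 = 4 from rfl]; omega
  have hd : 2 * g + 1 ≤ 2 * Λ := Nat.lt_two_pow_self.le.trans h4
  have a1 := many_good hH hg p S hk0 hk hN ((hGΛ 16 1 (by norm_num) _ (by omega)).trans hR)
    ((2 * g + 1) * (G ^ 5 * 4)) (Nat.succ_le_of_lt (by positivity))
  set Good := S.filter fun σ => #(lp (H 8) σ) < Λ * (2 * 8) ^ g * k ∧
      #(lp (H ((2 * g + 1) * (G ^ 5 * 4))) σ) < Λ * (2 * ((2 * g + 1) * (G ^ 5 * 4))) ^ g * k ∧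
      ∃ χ : ℝ, ((Λ ^ b : ℕ) : ℝ) ^ 2 ≤ χ ∧ k ≤ (Λ ^ (b + 6)) ^ 2 * #(Wset H σ χ) with hGood
  obtain ⟨Ξ, hΞ, hΞ'⟩ := xi (2 * g + 1) (G ^ 5)
  let F : ℝ → Finset ℝ := fun χ => Good.filter fun σ =>
    ((Λ ^ (2 * b) : ℕ) : ℝ) ≤ χ ∧ k ≤ 2 * G ^ (I + 1) * #(Dst H σ χ I)
  have a2 : Good ⊆ Ξ.biUnion F := fun σ hσ => by
    obtain ⟨-, b1, b2, χ, b3, b4⟩ := mem_filter.1 hσ
    have b5 : #(ln (H 8) σ) ≤ Λ ^ 3 * k := by
      have e1 := card_symm (ln (H 8) σ) ((hH.line σ).neg 8)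
      have e2 : Λ * (2 * 8) ^ g * k ≤ Λ * Λ * k := by
        gcongr; exact p.pow_le (by norm_num)
      have e3 : Λ * Λ * k * 2 ≤ Λ * Λ * k * Λ := by gcongr; omega
      have e4 : Λ ^ 3 * k = Λ * Λ * k * Λ := by ring
      rw [lp] at b1
      omega
    have b6 : Λ ^ 3 * k ≤ G * #(Wset H σ χ) :=
      calc Λ ^ 3 * k ≤ Λ ^ 3 * ((Λ ^ (b + 6)) ^ 2 * #(Wset H σ χ)) := Nat.mul_le_mul_left _ b4
        _ = _ := by rw [hG]; ring
    have b7 : #(ln (H 6) σ) ≤ G * #(Wset H σ χ) :=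
      (card_le_card fun x hx => (hH.line σ).mono (show 6 ≤ 8 by norm_num) hx).trans (b5.trans b6)
    have b8 : k ≤ G * #(Wset H σ χ) := (Nat.le_mul_of_pos_left _ (by positivity)).trans b6
    have b9 : ((Λ ^ (2 * b) : ℕ) : ℝ) ≤ χ := by
      rw [mul_comm, pow_mul, Nat.cast_pow]; exact b3
    have hχ : 0 < χ := lt_of_lt_of_le (by positivity) b9
    refine mem_biUnion.2 ⟨χ, hΞ' χ fun hn => ?_,
      mem_filter.2 ⟨hσ, b9, dstar hH σ χ G k I b8 b7 hG0 hbig⟩⟩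
    have c1 := dstar hH σ χ G k (2 * g) b8 b7 hG0
      (le_trans (Nat.mul_le_mul_left _ (Nat.pow_le_pow_right hG0 (by omega))) hbig)
    have c2 : #(Dst H σ χ (2 * g)) < 2 ^ (2 * Λ) :=
      calc _ ≤ #(lp (H 4) σ) := card_le_card fun x hx => (mem_Dst.1 hx).1
        _ ≤ 4 ^ g * N := (card_lp_le _ _).trans (hg 4 (by norm_num))
        _ < 2 ^ Λ * 2 ^ Λ := Nat.mul_lt_mul_of_le_of_lt
            ((p.pow_le (by norm_num)).trans Nat.lt_two_pow_self.le) p.N2 (by positivity)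
        _ = _ := by ring
    have c3 := rel hH σ χ hχ (2 * g + 1) (G ^ 5) (2 * g) (2 * Λ) (by omega) le_rfl hn c2
    refine rel_num hk0 ?_ ?_ ?_ c1 b2.le (c3.trans (by gcongr))
    · simpa using hGΛ 2 1 (by norm_num) 0 (by omega)
    · have := hGΛ 16 1 (by norm_num) 1 (by omega)
      rw [pow_one] at this
      omega
    · have := hGΛ 192 2 (by norm_num) 6 (by omega)
      calc _ ≤ 96 * Λ ^ 5 * (2 * Λ) := Nat.mul_le_mul_left _ h4
        _ = 192 * Λ ^ 6 := by ring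
        _ ≤ G := this
  have a3 : #Ξ ≤ G ^ (12 * g + 6) :=
    calc #Ξ ≤ (2 * G ^ 5) ^ (2 * g + 1) * 2 ^ (2 * g + 1) :=
          hΞ.trans (Nat.mul_le_mul_left _ Nat.lt_two_pow_self.le)
      _ = (4 * G ^ 5) ^ (2 * g + 1) := by rw [← mul_pow]; congr 1; ring
      _ ≤ (G * G ^ 5) ^ (2 * g + 1) := by
          gcongr; simpa using hGΛ 4 1 (by norm_num) 0 (by omega)
      _ = _ := by ring
  have hGn : Good.Nonempty := card_pos.1 (by omega)
  have hΞn : Ξ.Nonempty := by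
    obtain ⟨σ, hσ⟩ := hGn
    obtain ⟨χ, hχ, -⟩ := mem_biUnion.1 (a2 hσ)
    exact ⟨χ, hχ⟩
  obtain ⟨χ, -, hχ⟩ := Ξ.exists_max_image (fun χ => #(F χ)) hΞn
  have a4 : #Good ≤ G ^ (12 * g + 6) * #(F χ) :=
    ((card_le_card a2).trans (card_biUnion_le_card_mul _ _ _ hχ)).trans
      (Nat.mul_le_mul_right _ a3)
  obtain ⟨σ, hσ⟩ : (F χ).Nonempty :=
    card_pos.1 (Nat.pos_of_mul_pos_left ((card_pos.2 hGn).trans_le a4))
  exact ⟨χ, (mem_filter.1 hσ).2.1, F χ, by omega, fun τ hτ => (mem_filter.1 hτ).2.2⟩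

lemma fin_chain (hH : Tower H) (χ : ℝ) (U : Finset (ℝ × ℝ)) {N G I : ℕ} (hG : 2 ≤ G) (hI : 0 < I)
    (hU : ∀ u ∈ U, ∀ l ≤ I, χ ^ l • u ∈ H 8) (h1 : N ≤ G * #U) (h2 : #(H 24) ≤ G * #U)
    (h3 : G ^ 2 ≤ N) : ∃ w : ℝ × ℝ, w ≠ 0 ∧ ∃ J, N < G ^ (J + 3) ∧ 2 ^ (J + 1) ≤ N ∧
      ∀ e < I * (J + 1), χ ^ e • w ∈ H 16 := by
  have hN : N ≠ 0 := by
    have : 0 < G ^ 2 := by positivity
    omega
  have e1 := Nat.pow_log_le_self G hN
  have e2 := Nat.lt_pow_succ_log_self (show 1 < G by omega) N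
  have e3 : 2 ≤ Nat.log G N := Nat.le_log_of_pow_le (by omega) h3
  obtain ⟨J, hJ⟩ : ∃ J, Nat.log G N = J + 2 := ⟨_, (Nat.sub_add_cancel e3).symm⟩
  rw [hJ] at e1 e2
  obtain ⟨Y, hY, c1, c2⟩ := chain hH (χ ^ I) U 8 G (fun u hu => by simpa using hU u hu 0 hI.le)
    (fun u hu => hU u hu I le_rfl) h2 J
  have c3 : 1 < #Y := by
    refine lt_of_lt_of_le (show 1 < G by omega)
      (Nat.le_of_mul_le_mul_left (c := G ^ (J + 1)) ?_ (by positivity))
    calc G ^ (J + 1) * G = G ^ (J + 2) := by ring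
      _ ≤ G * #U := e1.trans h1
      _ ≤ G * (G ^ J * #Y) := Nat.mul_le_mul_left _ c1
      _ = _ := by ring
  obtain ⟨y, hy, y', hy', hne⟩ := one_lt_card.1 c3
  refine ⟨y - y', sub_ne_zero.2 hne, J, e2, ?_, fun e he => ?_⟩
  · exact ((Nat.pow_le_pow_left hG _).trans
      (Nat.pow_le_pow_right (by omega) (by omega))).trans e1
  · obtain ⟨u, hu, u', hu', h⟩ := c2 y hy y' hy' (e / I)
      (Nat.lt_succ_iff.1 (Nat.div_lt_of_lt_mul he))
    have : χ ^ e • (y - y') = χ ^ (e % I) • u - χ ^ (e % I) • u' := by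
      rw [← smul_sub, ← h, smul_smul, ← pow_mul, ← pow_add, Nat.mod_add_div]
    rw [this]
    exact hH.sub' (hU u hu _ (Nat.mod_lt _ hI).le) (hU u' hu' _ (Nat.mod_lt _ hI).le) le_rfl

theorem core (hH : Tower H) {g N Λ b k : ℕ} (hg : ∀ m, 1 ≤ m → #(H m) ≤ m ^ g * N)
    (p : Par g N Λ b) (S : Finset ℝ) (hk : ∀ σ ∈ S, k ≤ #(lp (H 1) σ))
    (hN : N ≤ Λ * (#S * k ^ 2)) {G X : ℕ} (hG : G = Λ ^ (2 * b + 15))
    (hX : X = G ^ ((2 * b + 1) * (12 * g + 9))) (hbig : X ^ 2 ≤ k) :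
    ∃ w : ℝ × ℝ, w ≠ 0 ∧ ∃ A : Finset ℝ, (∀ x ∈ A, x • w ∈ H G) ∧
      N ^ b ≤ X ^ (2 * b) * #A ^ (2 * b + 24) := by
  classical
  have h16 := p.h16
  have hb := p.b1
  have hΛ : 0 < Λ := by omega
  have hGΛ : ∀ e ≤ 2 * b + 15, Λ ^ e ≤ G := fun e he => hG ▸ p.mono he
  have hG2 : 16 ≤ G := h16.trans (by simpa using hGΛ 1 (by omega))
  have hG0 : 0 < G := by omega
  obtain ⟨I, hI⟩ : ∃ I, I = b * (12 * g + 9) := ⟨_, rfl⟩
  have hI0 : 12 * g + 9 ≤ I := hI ▸ Nat.le_mul_of_pos_left _ hb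
  have hX' : X = G ^ (2 * I + 12 * g + 9) := by rw [hX, hI]; congr 1; ring
  have hX2 : G ≤ X := by rw [hX']; exact Nat.le_self_pow (by omega) _
  have hX0 : 0 < X := by omega
  have hk0 : 0 < k := lt_of_lt_of_le (by positivity) hbig
  have hN0 : 1 ≤ N := by
    have := hg 1 le_rfl
    have := card_pos.2 ⟨_, hH.zero 1⟩
    simp only [one_pow, one_mul] at *
    omega
  obtain ⟨σ, hσ⟩ : S.Nonempty := by
    rw [← card_pos]
    exact Nat.pos_of_mul_pos_right (Nat.pos_of_mul_pos_left (lt_of_lt_of_le hN0 hN))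
  have hkN : k ≤ N := (hk σ hσ).trans ((card_lp_le _ _).trans (by simpa using hg 1 le_rfl))
  rcases Nat.lt_or_ge #S (G ^ (12 * g + 7)) with hR | hR
  · refine ⟨(1, σ), by simp, lp (H 1) σ, fun x hx => ?_, ?_⟩
    · have := hH.mono (show 1 ≤ G by omega) (mem_lp.1 hx).1
      simpa [mul_comm] using this
    · have a1 := hk σ hσ
      generalize #(lp (H 1) σ) = a at a1
      have a2 : N ≤ X * a ^ 2 :=
        calc N ≤ G * (G ^ (12 * g + 7) * a ^ 2) := by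
              refine hN.trans ?_
              gcongr
              simpa using hGΛ 1 (by omega)
          _ = G ^ (12 * g + 8) * a ^ 2 := by ring
          _ ≤ _ := Nat.mul_le_mul_right _ (hX' ▸ Nat.pow_le_pow_right hG0 (by omega))
      calc N ^ b ≤ (X * a ^ 2) ^ b := Nat.pow_le_pow_left a2 _
        _ = X ^ b * a ^ (2 * b) := by rw [mul_pow, ← pow_mul]
        _ ≤ _ := Nat.mul_le_mul (Nat.pow_le_pow_right hX0 (by omega))
            (Nat.pow_le_pow_right (by omega) (by omega))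
  have hXk : X ≤ k := (Nat.le_self_pow (by norm_num) _).trans hbig
  have hbig' : 2 * G ^ (I + 1) ≤ k :=
    calc 2 * G ^ (I + 1) ≤ G * G ^ (I + 1) := Nat.mul_le_mul_right _ (by omega)
      _ = G ^ (I + 2) := by ring
      _ ≤ X := hX' ▸ Nat.pow_le_pow_right hG0 (by omega)
      _ ≤ k := hXk
  obtain ⟨χ, hχ, S', a1, a2⟩ := same_chi hH hg p S hk hN hG
    ((Nat.le_self_pow (by omega) _).trans hR) (show 2 * g ≤ I by omega) hbig'
  have a3 : 2 ≤ #S' := by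
    have : G ^ (12 * g + 6) * G ≤ G ^ (12 * g + 6) * (4 * #S') :=
      calc _ = G ^ (12 * g + 7) := by ring
        _ ≤ _ := hR.trans a1
        _ = _ := by ring
    have := Nat.le_of_mul_le_mul_left this (by positivity)
    omega
  set U := (H 8).filter fun u => ∀ l ≤ I, χ ^ l • u ∈ H 8 with hU
  have a4 := sol S' (fun τ => Dst H τ χ I) U k (2 * G ^ (I + 1))
    (fun τ _ x hx => (mem_lp.1 (mem_Dst.1 hx).1).2) a2 (fun τ _ υ _ x hx y hy => by
      have e : ∀ l ≤ I, χ ^ l • ((x + y, τ * x + υ * y) : ℝ × ℝ) ∈ H 8 := fun l hl => by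
        have := hH.add 4 4 _ _ (mem_ln.1 ((mem_Dst.1 hx).2 l hl))
          (mem_ln.1 ((mem_Dst.1 hy).2 l hl))
        have e' : χ ^ l • ((x + y, τ * x + υ * y) : ℝ × ℝ) =
            (χ ^ l * x, τ * (χ ^ l * x)) + (χ ^ l * y, υ * (χ ^ l * y)) := by
          ext <;> simp <;> ring
        rw [e']; exact this
      exact mem_filter.2 ⟨by simpa using e 0 (Nat.zero_le _), e⟩)
  have a5 : #S' * k ^ 2 ≤ 4 * ((2 * G ^ (I + 1)) ^ 2 * #U) := by
    have := Nat.mul_le_mul_right (k ^ 2) a3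
    omega
  have a6 : Λ * N ≤ X * #U :=
    calc Λ * N ≤ Λ * (Λ * (4 * (G ^ (12 * g + 6) * #S') * k ^ 2)) := by
          refine Nat.mul_le_mul_left _ (hN.trans ?_); gcongr
      _ = Λ * Λ * 4 * G ^ (12 * g + 6) * (#S' * k ^ 2) := by ring
      _ ≤ Λ * Λ * 4 * G ^ (12 * g + 6) * (4 * ((2 * G ^ (I + 1)) ^ 2 * #U)) :=
          Nat.mul_le_mul_left _ a5
      _ = 64 * Λ ^ 2 * (G ^ (2 * I + 12 * g + 8) * #U) := by ring
      _ ≤ G * (G ^ (2 * I + 12 * g + 8) * #U) := by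
          refine Nat.mul_le_mul_right _ (le_trans ?_ (hGΛ 4 (by omega)))
          calc 64 * Λ ^ 2 ≤ Λ ^ 2 * Λ ^ 2 := Nat.mul_le_mul_right _ (by nlinarith)
            _ = _ := by ring
      _ = _ := by rw [hX']; ring
  obtain ⟨w, hw, J, b1, b2, b3⟩ := fin_chain hH χ U (N := N) (G := X) (I := I) (by omega)
    (by omega) (fun u hu => (mem_filter.1 hu).2) ((Nat.le_mul_of_pos_left _ hΛ).trans a6)
    (((hg 24 (by norm_num)).trans (Nat.mul_le_mul_right _ (p.pow_le (by norm_num)))).trans a6)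
    (hbig.trans hkN)
  have hχ1 : 1 ≤ χ := le_trans (by exact_mod_cast Nat.one_le_pow _ _ hΛ) hχ
  refine ⟨w, hw, dig χ (I * (J + 1)) (Icc 1 (Λ ^ (2 * b))), fun x hx =>
    hH.mono ?_ (dig_smul hH b3 hx), ?_⟩
  · have c1 : J + 1 ≤ Λ := ((Nat.pow_lt_pow_iff_right (by norm_num)).1 (b2.trans_lt p.N2)).le
    have c2 : g ≤ Λ := Nat.lt_two_pow_self.le.trans (p.pow_le (by norm_num))
    have c3 : I ≤ Λ * (Λ * Λ * Λ) := by
      rw [hI]; exact Nat.mul_le_mul p.bΛ (by nlinarith [Nat.mul_le_mul h16 h16])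
    calc I * (J + 1) * (Λ ^ (2 * b) * 16) ≤ Λ * (Λ * Λ * Λ) * Λ * (Λ ^ (2 * b) * Λ) := by gcongr
      _ = Λ ^ (2 * b + 6) := by ring
      _ ≤ G := hGΛ _ (by omega)
  · rw [card_dig (norel hχ hχ1 _)]
    calc N ^ b ≤ (X ^ (J + 3)) ^ b := Nat.pow_le_pow_left b1.le _
      _ = X ^ (2 * b) * X ^ ((J + 1) * b) := by ring
      _ ≤ _ := by
          refine Nat.mul_le_mul_left _ ?_
          rw [hX, hG, hI]
          simp only [← pow_mul]
          refine p.mono ?_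
          calc _ = ((2 * b + 15) * (2 * b + 1)) * ((12 * g + 9) * (J + 1) * b) := by ring
            _ ≤ (2 * b * (2 * b + 24)) * ((12 * g + 9) * (J + 1) * b) :=
                Nat.mul_le_mul_right _ (by nlinarith)
            _ = _ := by ring

end SDL

end MrgPart1

-- ======== part 2: formerly Pool.Agent.MP_ddf486_co.Main
section MrgPart2

/-! From few distances and small doubling to a rich line. -/

namespace SDL
open Finset
open scoped Pointwise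

section growth
variable {V : Type*} [AddCommGroup V] [DecidableEq V]

lemma card_nsmul_poly (X : Finset V) (m : ℕ) : #(m • X) ≤ (m + 1) ^ #X := by
  have : m • X ⊆ (Fintype.piFinset fun _ : X => range (m + 1)).image
      fun c => ∑ x : X, c x • (x : V) := by
    induction m with
    | zero =>
      intro a ha
      rw [zero_nsmul, mem_zero] at ha
      exact mem_image.2 ⟨fun _ => 0, by simp, by simp [ha]⟩
    | succ m ih =>
      intro a ha
      rw [succ_nsmul, mem_add] at ha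
      obtain ⟨y, hy, x, hx, rfl⟩ := ha
      obtain ⟨c, hc, rfl⟩ := mem_image.1 (ih hy)
      refine mem_image.2 ⟨fun z => c z + if z = ⟨x, hx⟩ then 1 else 0,
        Fintype.mem_piFinset.2 fun z => ?_, ?_⟩
      · have := mem_range.1 (Fintype.mem_piFinset.1 hc z)
        rw [mem_range]; split_ifs <;> omega
      · simp [add_nsmul, sum_add_distrib]
  exact (card_le_card this).trans (card_image_le.trans (by simp))

lemma plu {P : Finset V} {K : ℕ} (hP : P.Nonempty) (hK : #(P - P) ≤ K * #P) (a b : ℕ) :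
    #(a • P - b • P) ≤ K ^ (a + b) * #P := by
  have h := pluennecke_ruzsa_inequality_nsmul_sub_nsmul_sub hP P a b
  have hp : (0 : ℚ≥0) < #P := by exact_mod_cast hP.card_pos
  have h1 : (#(P - P) / #P : ℚ≥0) ≤ K := by
    rw [div_le_iff₀ hp]; exact_mod_cast hK
  have h2 : (#(a • P - b • P) : ℚ≥0) ≤ (K : ℚ≥0) ^ (a + b) * #P := h.trans (by gcongr)
  exact_mod_cast h2

lemma tower {P : Finset V} (hP : P.Nonempty) : Tower fun m => (2 * m) • (P - P) where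
  zero m := by
    obtain ⟨p, hp⟩ := hP
    exact zero_mem_nsmul (mem_sub.2 ⟨p, hp, p, hp, sub_self p⟩)
  neg m x hx := by
    have : -((2 * m) • (P - P)) = (2 * m) • (P - P) := by rw [← neg_nsmul, neg_sub]
    rw [← this]; exact neg_mem_neg hx
  add a b x y hx hy := by
    show x + y ∈ (2 * (a + b)) • (P - P)
    rw [mul_add, add_nsmul]; exact add_mem_add hx hy

lemma five {P : Finset V} {K : ℕ} (hP : P.Nonempty) (hK : #(P - P) ≤ K * #P) :
    #((2 * 1) • (P - P) + P) ≤ K ^ 5 * #P := by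
  have : (2 * 1) • (P - P) + P = 3 • P - 2 • P := by
    rw [nsmul_sub, succ_nsmul P 2, sub_add_eq_add_sub]
  rw [this]; exact plu hP hK 3 2

lemma growth {P : Finset V} {K : ℕ} (hP : P.Nonempty) (hK : #(P - P) ≤ K * #P) (m : ℕ)
    (hm : 1 ≤ m) : #((2 * m) • (P - P)) ≤ m ^ (K ^ 5) * (2 ^ (K ^ 5) * K * #P) := by
  obtain ⟨X, -, hX, hc⟩ := ruzsa_covering_add (A := (2 * 1) • (P - P)) (K := (K ^ 5 : ℕ)) hP
    (by exact_mod_cast five hP hK)
  have hX' : #X ≤ K ^ 5 := by exact_mod_cast hX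
  have h1 : ∀ j, (j + 1) • (P - P) ⊆ j • X + (P - P) := fun j => by
    induction j with
    | zero => simp
    | succ j ih =>
      rw [succ_nsmul, succ_nsmul X, add_assoc]
      refine (add_subset_add_right ih).trans ?_
      rw [add_assoc, ← two_nsmul]
      exact add_subset_add_left hc
  obtain ⟨j, hj⟩ : ∃ j, 2 * m = j + 1 := ⟨2 * m - 1, by omega⟩
  calc _ ≤ #(j • X + (P - P)) := by rw [hj]; exact card_le_card (h1 j)
    _ ≤ (j + 1) ^ #X * (K * #P) := card_add_le.trans (Nat.mul_le_mul (card_nsmul_poly X j) hK)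
    _ ≤ (2 * m) ^ (K ^ 5) * (K * #P) := by
        rw [hj]; exact Nat.mul_le_mul_right _ (Nat.pow_le_pow_right (by omega) hX')
    _ = _ := by rw [mul_pow]; ring

lemma bsg (A : Finset V) (K : ℕ) (hA : A.Nonempty) (hE : #A ^ 3 ≤ K * addEnergy A A) :
    ∃ A' ⊆ A, #A ≤ 4 * K * #A' ∧ #(A' - A') ≤ 4096 * K ^ 4 * #A' := by
  classical
  let X : V → Finset V := fun s => A.filter fun a => a - s ∈ A
  have hfib : ∀ s, #((A ×ˢ A).filter fun p => p.1 - p.2 = s) = #(X s) := fun s => by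
    refine card_nbij' Prod.fst (fun a => (a, a - s)) (fun p hp => ?_) (fun a ha => ?_)
      (fun p hp => ?_) fun a _ => rfl
    · obtain ⟨h1, h2⟩ := mem_filter.1 (mem_coe.1 hp)
      refine mem_coe.2 (mem_filter.2 ⟨(mem_product.1 h1).1, ?_⟩)
      rw [← h2, sub_sub_cancel]; exact (mem_product.1 h1).2
    · obtain ⟨h1, h2⟩ := mem_filter.1 (mem_coe.1 ha)
      exact mem_coe.2 (mem_filter.2 ⟨mem_product.2 ⟨h1, h2⟩, sub_sub_cancel _ _⟩)
    · have h2 := (mem_filter.1 (mem_coe.1 hp)).2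
      show (p.1, p.1 - s) = p
      rw [← h2, sub_sub_cancel]
  set S := (A ×ˢ A).image fun p => p.1 - p.2 with hS
  have h1 : ∑ s ∈ S, #(X s) = #A ^ 2 := by
    rw [sq, ← card_product, card_eq_sum_card_image (fun p : V × V => p.1 - p.2)]
    exact sum_congr rfl fun s _ => (hfib s).symm
  have h2 : addEnergy A A ≤ ∑ s ∈ S, #(X s) ^ 2 := by
    have e := ep_eq (A ×ˢ A) fun p : V × V => p.1 - p.2
    simp only [hfib] at e
    rw [← e, addEnergy]
    refine card_le_card_of_injOn (fun x => (x.1, x.2.swap)) ?_ ?_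
    · rintro ⟨⟨a, b⟩, c, d⟩ hx
      simp only [coe_filter, mem_product, Set.mem_ofPred_eq, Prod.swap] at hx ⊢
      exact ⟨⟨hx.1.1, hx.1.2.2, hx.1.2.1⟩, by rw [sub_eq_sub_iff_add_eq_add, hx.2, add_comm]⟩
    · rintro ⟨a, b⟩ _ ⟨c, d⟩ _ e
      simp only [Prod.mk.injEq, Prod.swap_inj] at e ⊢
      exact e
  let bad : V → ℕ := fun s => #((X s ×ˢ X s).filter fun p => 16 * K * #(X (p.1 - p.2)) < #A)
  have h3 : 16 * K * ∑ s ∈ S, bad s ≤ #A ^ 3 := by
    set Ω := (A ×ˢ A).filter fun p => 16 * K * #(X (p.1 - p.2)) < #A with hΩ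
    have e1 : ∑ s ∈ S, bad s = ∑ p ∈ Ω, #(S.filter fun s => p.1 - s ∈ A ∧ p.2 - s ∈ A) := by
      simp only [card_filter]
      rw [sum_comm]
      refine sum_congr rfl fun s _ => ?_
      rw [← card_filter]
      refine congrArg card ?_
      ext p
      simp only [X, hΩ, mem_filter, mem_product]
      tauto
    rw [e1, mul_sum]
    calc _ ≤ ∑ _p ∈ Ω, #A := sum_le_sum fun p hp => by
          refine le_trans (Nat.mul_le_mul_left _ ?_) (mem_filter.1 hp).2.le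
          refine card_le_card_of_injOn (fun s => p.1 - s) (fun s hs => ?_)
            (fun x _ y _ h => sub_right_injective h)
          obtain ⟨c1, c2⟩ := (mem_filter.1 (mem_coe.1 hs)).2
          refine mem_coe.2 (mem_filter.2 ⟨c1, ?_⟩)
          rwa [show p.1 - s - (p.1 - p.2) = p.2 - s by abel]
      _ = #Ω * #A := by simp
      _ ≤ #A * #A * #A :=
          Nat.mul_le_mul_right _ ((card_filter_le _ _).trans (card_product _ _).le)
      _ = _ := by ring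
  set T := S.filter fun s => #A ≤ 2 * K * #(X s) with hT
  have h4 : 2 * K * ∑ s ∈ S.filter (fun s => ¬ #A ≤ 2 * K * #(X s)), #(X s) ^ 2 ≤ #A ^ 3 := by
    rw [mul_sum]
    calc _ ≤ ∑ s ∈ S.filter (fun s => ¬ #A ≤ 2 * K * #(X s)), #A * #(X s) :=
          sum_le_sum fun s hs => by
            rw [sq, ← mul_assoc]
            exact Nat.mul_le_mul_right _ (not_le.1 (mem_filter.1 hs).2).le
      _ ≤ ∑ s ∈ S, #A * #(X s) := sum_le_sum_of_subset (filter_subset _ _)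
      _ = _ := by rw [← mul_sum, h1]; ring
  have h5 := sum_filter_add_sum_filter_not S (fun s => #A ≤ 2 * K * #(X s)) fun s => #(X s) ^ 2
  rw [← hT] at h5
  have hn : 0 < #A := hA.card_pos
  have hK : 0 < K := Nat.pos_of_mul_pos_right ((pow_pos hn 3).trans_le hE)
  have h6 : #A ^ 3 ≤ 2 * K * ∑ s ∈ T, #(X s) ^ 2 := by
    have := Nat.mul_le_mul_left K h2
    rw [← h5] at this
    nlinarith
  have hTn : T.Nonempty := by
    rcases T.eq_empty_or_nonempty with h | h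
    · rw [h, sum_empty, mul_zero] at h6; exact absurd h6 (not_le.2 (pow_pos hn 3))
    · exact h
  obtain ⟨s, hs, h7⟩ := exists_le_of_sum_le (f := fun s => 8 * bad s) (g := fun s => #(X s) ^ 2)
    hTn (by
      refine Nat.le_of_mul_le_mul_left (c := 2 * K) (le_trans ?_ (h3.trans h6)) (by omega)
      rw [← mul_sum]
      have : ∑ s ∈ T, bad s ≤ ∑ s ∈ S, bad s := sum_le_sum_of_subset (filter_subset _ _)
      nlinarith)
  have h8 : #A ≤ 2 * K * #(X s) := (mem_filter.1 hs).2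
  have hXA : X s ⊆ A := filter_subset _ _
  have hb : bad s = ∑ a ∈ X s, #((X s).filter fun b => 16 * K * #(X (a - b)) < #A) := by
    simp only [bad, card_filter, sum_product]
  generalize X s = Y at h7 h8 hXA hb
  have hY : 0 < #Y := Nat.pos_of_mul_pos_left (hn.trans_le h8)
  set A' := Y.filter fun a => 4 * #(Y.filter fun b => 16 * K * #(X (a - b)) < #A) ≤ #Y with hA'
  have h9 : #Y ≤ 2 * #A' := by
    have e1 := card_filter_add_card_filter_not (s := Y)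
      fun a => 4 * #(Y.filter fun b => 16 * K * #(X (a - b)) < #A) ≤ #Y
    rw [← hA'] at e1
    have e2 : #(Y.filter fun a => ¬ 4 * #(Y.filter fun b => 16 * K * #(X (a - b)) < #A) ≤ #Y) *
        #Y ≤ 4 * bad s := by
      rw [hb, mul_sum, ← smul_eq_mul]
      exact (card_nsmul_le_sum _ _ _ fun a ha => (not_le.1 (mem_filter.1 ha).2).le).trans
        (sum_le_sum_of_subset (filter_subset _ _))
    refine Nat.le_of_mul_le_mul_right (c := #Y) ?_ hY
    nlinarith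
  set D := S.filter fun d => #A ≤ 16 * K * #(X d) with hD
  have h10 : #D ≤ 16 * K * #A := by
    refine Nat.le_of_mul_le_mul_right (c := #A) ?_ hn
    calc #D * #A ≤ ∑ d ∈ D, 16 * K * #(X d) := by
          rw [← smul_eq_mul]; exact card_nsmul_le_sum _ _ _ fun d hd => (mem_filter.1 hd).2
      _ ≤ ∑ d ∈ S, 16 * K * #(X d) := sum_le_sum_of_subset (filter_subset _ _)
      _ = _ := by rw [← mul_sum, h1]; ring
  have h11 : #(A' - A') * ((#Y + 1) / 2) ≤ #(D ×ˢ D) * 1 := by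
    refine card_mul_le_card_mul (fun d (q : V × V) => q.1 - q.2 = d) (fun d hd => ?_)
      fun q _ => card_le_one.2 fun x hx y hy => ?_
    · obtain ⟨a, ha, a', ha', rfl⟩ := mem_sub.1 hd
      rw [hA', mem_filter] at ha ha'
      set W := Y.filter fun b => #A ≤ 16 * K * #(X (a - b)) ∧ #A ≤ 16 * K * #(X (a' - b)) with hW
      have c1 : Y ⊆ W ∪ (Y.filter (fun b => 16 * K * #(X (a - b)) < #A) ∪
          Y.filter fun b => 16 * K * #(X (a' - b)) < #A) := fun b hb => by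
        simp only [hW, mem_union, mem_filter, hb, true_and]
        omega
      have c2 := (card_le_card c1).trans ((card_union_le _ _).trans
        (Nat.add_le_add_left (card_union_le _ _) _))
      refine le_trans (show _ ≤ #W by omega) (card_le_card_of_injOn (fun b => (a - b, a' - b))
        (fun b hb => ?_) fun x _ y _ h => sub_right_injective (congrArg Prod.fst h))
      obtain ⟨c3, c4, c5⟩ := mem_filter.1 (mem_coe.1 hb)
      refine mem_coe.2 ((mem_bipartiteAbove _).2 ⟨mem_product.2 ⟨mem_filter.2 ⟨?_, c4⟩,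
        mem_filter.2 ⟨?_, c5⟩⟩, sub_sub_sub_cancel_right _ _ _⟩)
      · exact mem_image.2 ⟨(a, b), mem_product.2 ⟨hXA ha.1, hXA c3⟩, rfl⟩
      · exact mem_image.2 ⟨(a', b), mem_product.2 ⟨hXA ha'.1, hXA c3⟩, rfl⟩
    · exact ((mem_bipartiteBelow _).1 hx).2.symm.trans ((mem_bipartiteBelow _).1 hy).2
  refine ⟨A', (filter_subset _ _).trans hXA, by nlinarith, ?_⟩
  rw [card_product, mul_one] at h11
  refine Nat.le_of_mul_le_mul_right (c := #Y) ?_ hY
  calc #(A' - A') * #Y ≤ #(A' - A') * (2 * ((#Y + 1) / 2)) := Nat.mul_le_mul_left _ (by omega)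
    _ = 2 * (#(A' - A') * ((#Y + 1) / 2)) := by ring
    _ ≤ 2 * ((16 * K * (2 * K * #Y)) * (16 * K * (2 * K * (2 * #A')))) :=
        Nat.mul_le_mul_left _ (h11.trans (Nat.mul_le_mul (h10.trans (by gcongr))
          (h10.trans (Nat.mul_le_mul_left _ (h8.trans (by gcongr))))))
    _ = _ := by ring

end growth

/-- Every line has at most `μ` points of `P`. -/
def Lines (P : Finset (ℝ × ℝ)) (μ : ℕ) : Prop :=
  ∀ (z w : ℝ × ℝ) (Q : Finset (ℝ × ℝ)), Q ⊆ P → (∀ q ∈ Q, ∃ x : ℝ, q = x • w + z) → #Q ≤ μ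

lemma transfer {P : Finset (ℝ × ℝ)} {μ : ℕ} (hμ : Lines P μ) {w : ℝ × ℝ} (hw : w ≠ 0)
    (c : ℝ × ℝ) (A : Finset ℝ) (Z : Finset (ℝ × ℝ))
    (h : ∀ p ∈ P, ∀ x ∈ A, x • w + (p - c) ∈ Z) : #P * #A ≤ μ * #Z := by
  rw [← card_product]
  refine card_le_mul_card_image_of_maps_to (f := fun q => q.2 • w + (q.1 - c))
    (fun q hq => h _ (mem_product.1 hq).1 _ (mem_product.1 hq).2) μ fun z _ => ?_
  rw [← card_image_of_injOn (f := Prod.fst)]
  · refine hμ (z + c) w _ (fun p hp => ?_) fun p hp => ?_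
    · obtain ⟨q, hq, rfl⟩ := mem_image.1 hp
      exact (mem_product.1 (mem_filter.1 hq).1).1
    · obtain ⟨q, hq, rfl⟩ := mem_image.1 hp
      refine ⟨-q.2, ?_⟩
      rw [← (mem_filter.1 hq).2, neg_smul]; abel
  · rintro ⟨p, x⟩ hq ⟨p', x'⟩ hq' (e : p = p')
    have e1 := (mem_filter.1 (mem_coe.1 hq)).2
    have e2 := (mem_filter.1 (mem_coe.1 hq')).2
    subst e
    have : x • w = x' • w := add_right_cancel (e1.trans e2.symm)
    rw [smul_left_injective ℝ hw this]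

/-- Squared Euclidean length. -/
def nrm (v : ℝ × ℝ) : ℝ := v.1 ^ 2 + v.2 ^ 2

lemma orth (B S : Finset (ℝ × ℝ)) (h1 : ∀ u ∈ B, ∀ v ∈ B, u + v ∈ S ∧ u - v ∈ S)
    (h2 : ∀ u ∈ S, -u ∈ S) :
    ep B nrm ≤ 2 * #S + (8 * ∑ σ ∈ S.image fun p => p.2 / p.1, #(lp S σ) ^ 2 +
      2 * #(S.filter fun p => p.1 = 0) ^ 2) := by
  classical
  set f : ℝ × ℝ → ℝ := fun p => p.2 / p.1 with hf
  have a1 : ep B nrm ≤ #(({0} ×ˢ S ∪ S ×ˢ {0}) ∪
      (S ×ˢ S).filter fun q => f q.1 = -(f q.2)⁻¹) := by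
    refine card_le_card_of_injOn (fun q => (q.1 - q.2, q.1 + q.2)) ?_ ?_
    · rintro ⟨u, v⟩ hq
      simp only [coe_filter, mem_product, Set.mem_ofPred_eq] at hq
      obtain ⟨⟨hu, hv⟩, e⟩ := hq
      obtain ⟨c1, c2⟩ := h1 u hu v hv
      have e' : (u - v).1 * (u + v).1 + (u - v).2 * (u + v).2 = 0 := by
        simp only [nrm] at e
        simp only [Prod.fst_sub, Prod.fst_add, Prod.snd_sub, Prod.snd_add]
        linarith
      simp only [mem_coe, mem_union, mem_product, mem_singleton, mem_filter]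
      generalize u - v = s at *
      generalize u + v = t at *
      by_cases hs : s = 0
      · exact Or.inl (Or.inl ⟨hs, c1⟩)
      by_cases ht : t = 0
      · exact Or.inl (Or.inr ⟨c2, ht⟩)
      refine Or.inr ⟨⟨c2, c1⟩, ?_⟩
      simp only [hf, inv_div]
      by_cases hs1 : s.1 = 0
      · have hs2 : s.2 ≠ 0 := fun h => hs (Prod.ext hs1 h)
        have : t.2 = 0 := by
          rw [hs1, zero_mul, zero_add] at e'
          exact (mul_eq_zero.1 e').resolve_left hs2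
        simp [hs1, this]
      · have ht2 : t.2 ≠ 0 := fun h => by
          rw [h, mul_zero, add_zero] at e'
          exact ht (Prod.ext ((mul_eq_zero.1 e').resolve_left hs1) h)
        field_simp
        linarith
    · rintro ⟨u, v⟩ _ ⟨u', v'⟩ _ e
      simp only [Prod.ext_iff, Prod.fst_sub, Prod.fst_add, Prod.snd_sub,
        Prod.snd_add] at e ⊢
      obtain ⟨⟨e1, e2⟩, e3, e4⟩ := e
      exact ⟨⟨by linarith, by linarith⟩, by linarith, by linarith⟩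
  have a2 := cross S f (fun c => -c⁻¹) (fun x y h => inv_injective (neg_injective h))
  have a3 : ∀ σ, #(S.filter fun p => f p = σ) ≤
      2 * #(lp S σ) + if σ = 0 then #(S.filter fun p => p.1 = 0) else 0 := fun σ => by
    set T := (S.filter fun p => 0 < p.1).filter fun p => p.2 / p.1 = σ with hT
    have b1 : #T ≤ #(lp S σ) := (fib_le _ (fun p hp => (mem_filter.1 hp).2) σ).trans
      (card_le_card fun x hx => mem_lp.2 ⟨(mem_filter.1 (mem_lp.1 hx).1).1, (mem_lp.1 hx).2⟩)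
    have b2 : (S.filter fun p => f p = σ) ⊆ (T ∪ T.image Neg.neg) ∪
        if σ = 0 then S.filter fun p => p.1 = 0 else ∅ := fun p hp => by
      rw [mem_filter] at hp
      rcases lt_trichotomy p.1 0 with h | h | h
      · refine mem_union_left _ (mem_union_right _ (mem_image.2 ⟨-p, ?_, neg_neg p⟩))
        refine mem_filter.2 ⟨mem_filter.2 ⟨h2 p hp.1, by simpa using h⟩, ?_⟩
        simpa [neg_div_neg_eq] using hp.2
      · have : σ = 0 := by rw [← hp.2]; simp [hf, h]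
        rw [if_pos this]
        exact mem_union_right _ (mem_filter.2 ⟨hp.1, h⟩)
      · exact mem_union_left _ (mem_union_left _ (mem_filter.2 ⟨mem_filter.2 ⟨hp.1, h⟩, hp.2⟩))
    have b3 := (card_le_card b2).trans (card_union_le _ _)
    have b4 := card_union_le T (T.image Neg.neg)
    have b5 : #(T.image Neg.neg) ≤ #T := card_image_le
    split_ifs at b3 ⊢
    · omega
    · rw [card_empty] at b3; omega
  have a4 : ep S f ≤ 8 * ∑ σ ∈ S.image f, #(lp S σ) ^ 2 +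
      2 * #(S.filter fun p => p.1 = 0) ^ 2 := by
    rw [ep_eq]
    calc _ ≤ ∑ σ ∈ S.image f, (8 * #(lp S σ) ^ 2 +
          if σ = 0 then 2 * #(S.filter fun p => p.1 = 0) ^ 2 else 0) := sum_le_sum fun σ _ => by
          refine (Nat.pow_le_pow_left (a3 σ) 2).trans ?_
          split_ifs
          · nlinarith [two_mul_le_add_sq (2 * #(lp S σ) : ℤ) #(S.filter fun p => p.1 = 0)]
          · nlinarith
      _ ≤ _ := by
          rw [sum_add_distrib, ← mul_sum, sum_ite_eq']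
          split_ifs <;> omega
  have a5 := card_union_le (({0} ×ˢ S ∪ S ×ˢ {0}) : Finset ((ℝ × ℝ) × ℝ × ℝ))
    ((S ×ˢ S).filter fun q => f q.1 = -(f q.2)⁻¹)
  have a6 := card_union_le (({0} ×ˢ S) : Finset ((ℝ × ℝ) × ℝ × ℝ)) (S ×ˢ {0})
  rw [card_product, card_product, card_singleton] at a6
  omega

lemma scale (S Z : Finset (ℝ × ℝ)) (I : Finset ℝ) (Z0 T j1 n : ℕ)
    (hZ : ∀ u ∈ S, ∀ v ∈ S, u + v ∈ Z) (h0 : #Z ≤ Z0) (h1 : ∀ σ, #(lp S σ) ^ 2 ≤ Z0)
    (hT : ∀ σ, #(lp S σ) < 2 ^ T) (h : 12 * Z0 * j1 + 4 * n < ∑ σ ∈ I, #(lp S σ) ^ 2) :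
    ∃ j, j1 ≤ j ∧ n ≤ T * (#(cls I (fun σ => #(lp S σ)) j) * (2 ^ j) ^ 2) := by
  by_contra hc
  push Not at hc
  refine absurd ((dy I (fun σ => #(lp S σ)) T fun σ _ => hT σ).trans ?_) (not_le.2 h)
  calc _ ≤ ∑ j ∈ range T, ((if j < j1 then 12 * Z0 else 0) + 4 * (n / T)) :=
        sum_le_sum fun j hj => by
          split_ifs with h2
          · have := cls_le I (fun σ => lp S σ) Z Z0 (fun σ _ x hx => (mem_lp.1 hx).2)
              (fun σ _ τ _ x hx y hy => hZ _ (mem_lp.1 hx).1 _ (mem_lp.1 hy).1) h0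
              (fun σ _ => h1 σ) j
            omega
          · have := (hc j (by omega)).le
            rw [mul_comm, ← Nat.le_div_iff_mul_le (by rw [mem_range] at hj; omega)] at this
            omega
    _ ≤ _ := by
        rw [sum_add_distrib, ← sum_filter, sum_const, sum_const, card_range, smul_eq_mul,
          smul_eq_mul]
        have e1 : #((range T).filter fun j => j < j1) ≤ j1 :=
          (card_le_card fun j hj => mem_range.2 (mem_filter.1 hj).2).trans (card_range j1).le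
        have e2 := Nat.mul_div_le n T
        nlinarith [Nat.mul_le_mul_right (12 * Z0) e1]

theorem top (b : ℕ) (hb : 1 ≤ b) : ∃ C : ℕ, ∀ (P : Finset (ℝ × ℝ)) (K M μ D ℓ : ℕ), P.Nonempty →
    #(P - P) ≤ K * #P → Lines P μ → #((P - P).image nrm) ≤ D → Nat.log 2 #P + 1 ≤ 2 ^ ℓ →
    1 ≤ ℓ → 0 < M → M ≤ K → C * K ^ 20 * M * ℓ * D < #P →
    M * #P ≤ μ ^ 2 ∨ (M * #P) ^ b ≤ #P * μ ^ (2 * b + 24) := by
  classical
  obtain ⟨c, hc⟩ : ∃ c, c = (b + 12) * (2 * b + 15) * ((2 * b + 1) * 21) * (5 * b + 24) :=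
    ⟨_, rfl⟩
  have hc0 : 0 < c := by rw [hc]; positivity
  refine ⟨132 * c, fun P K M μ D ℓ hP hK hμ hD hℓ hℓ1 hM0 hMK hC => ?_⟩
  rcases Nat.lt_or_ge (μ ^ 2) (M * #P) with hμn | hμn
  swap
  · exact Or.inl hμn
  refine Or.inr ?_
  have hH := tower hP
  have hg := growth hP hK
  have h5 := five hP hK
  have h8 : #((2 * 2) • (P - P)) ≤ K ^ 8 * #P := by rw [nsmul_sub]; exact plu hP hK 4 4
  have hB : ∀ u ∈ P - P, ∀ v ∈ P - P, u + v ∈ (2 * 1) • (P - P) := fun u hu v hv => by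
    rw [mul_one, two_nsmul]; exact add_mem_add hu hv
  have hBn : ∀ u ∈ P - P, -u ∈ P - P := fun u hu => by
    rw [← neg_sub P P]; exact neg_mem_neg hu
  have hn : #P ≤ #(P - P) := card_le_card_sub_right hP
  have h5' : ∀ u ∈ (2 * 1) • (P - P), ∀ p ∈ P, u + (p - 0) ∈ (2 * 1) • (P - P) + P :=
    fun u hu p hp => by rw [sub_zero]; exact add_mem_add hu hp
  obtain ⟨p0, hp0⟩ := hP
  have hP1 : ∀ p ∈ P, p - p0 ∈ (2 * 1) • (P - P) := fun p hp => by
    simpa using hB _ (sub_mem_sub hp hp0) _ (sub_mem_sub hp0 hp0)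
  set H : ℕ → Finset (ℝ × ℝ) := fun m => (2 * m) • (P - P) with hHd
  change ∀ m, 1 ≤ m → #(H m) ≤ _ at hg
  change #(H 1 + P) ≤ _ at h5
  change #(H 2) ≤ _ at h8
  change ∀ u ∈ P - P, ∀ v ∈ P - P, u + v ∈ H 1 at hB
  change ∀ u ∈ H 1, ∀ p ∈ P, u + (p - 0) ∈ H 1 + P at h5'
  change ∀ p ∈ P, p - p0 ∈ H 1 at hP1
  clear_value H
  have hn0 : 0 < #P := card_pos.2 ⟨p0, hp0⟩
  have hK0 : 0 < K := Nat.pos_of_mul_pos_right (hn0.trans_le (hn.trans hK))
  have hcs : #P ^ 2 ≤ D * ep (P - P) nrm :=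
    ((Nat.pow_le_pow_left hn 2).trans (cs _ nrm)).trans (Nat.mul_le_mul_right _ hD)
  have hD0 : 0 < D := Nat.pos_of_mul_pos_right ((pow_pos hn0 2).trans_le hcs)
  have hline : ∀ w : ℝ × ℝ, w ≠ 0 → ∀ A : Finset ℝ, (∀ x ∈ A, x • w ∈ H 1) →
      #A ^ 2 ≤ K ^ 10 * (M * #P) := fun w hw A hA => by
    have e1 := transfer hμ hw 0 A (H 1 + P) fun p hp x hx => h5' _ (hA x hx) p hp
    have e2 : #A ≤ K ^ 5 * μ := by
      refine Nat.le_of_mul_le_mul_left (c := #P) (e1.trans ?_) hn0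
      calc μ * #(H 1 + P) ≤ μ * (K ^ 5 * #P) := Nat.mul_le_mul_left _ h5
        _ = _ := by ring
    calc #A ^ 2 ≤ (K ^ 5 * μ) ^ 2 := Nat.pow_le_pow_left e2 2
      _ = K ^ 10 * μ ^ 2 := by ring
      _ ≤ _ := Nat.mul_le_mul_left _ hμn.le
  have ha : ∀ σ, #(lp (H 1) σ) ^ 2 ≤ K ^ 10 * (M * #P) := fun σ =>
    hline (1, σ) (by simp) _ fun x hx => by simpa [mul_comm] using (mem_lp.1 hx).1
  have hv : #((H 1).filter fun p => p.1 = 0) ^ 2 ≤ K ^ 10 * (M * #P) := by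
    rw [← card_image_of_injOn (f := Prod.snd)]
    · refine hline (0, 1) (by simp) _ fun x hx => ?_
      obtain ⟨p, hp, rfl⟩ := mem_image.1 hx
      rw [mem_filter] at hp
      have : p.2 • ((0, 1) : ℝ × ℝ) = p := by ext <;> simp [hp.2]
      rw [this]; exact hp.1
    · intro p hp q hq e
      exact Prod.ext (((mem_filter.1 (mem_coe.1 hp)).2).trans
        (mem_filter.1 (mem_coe.1 hq)).2.symm) e
  have hKn : K ^ 10 * M ≤ #P :=
    calc K ^ 10 * M ≤ K ^ 20 * M :=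
          Nat.mul_le_mul_right _ (Nat.pow_le_pow_right hK0 (by norm_num))
      _ ≤ K ^ 20 * M * (132 * c * ℓ * D) := Nat.le_mul_of_pos_right _ (by positivity)
      _ = 132 * c * K ^ 20 * M * ℓ * D := by ring
      _ ≤ _ := hC.le
  have hMn : #P ≤ M * #P := Nat.le_mul_of_pos_left _ hM0
  have han : ∀ σ, #(lp (H 1) σ) ≤ #P := fun σ =>
    (Nat.pow_le_pow_iff_left two_ne_zero).1 ((ha σ).trans
      (by rw [← mul_assoc, sq #P]; exact Nat.mul_le_mul_right _ hKn))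
  have h8' : #(H 2) ≤ K ^ 10 * (M * #P) :=
    h8.trans (Nat.mul_le_mul (Nat.pow_le_pow_right hK0 (by norm_num)) hMn)
  have h4' : #(H 1) ≤ K ^ 10 * (M * #P) :=
    (card_le_card fun x hx => hH.mono (show 1 ≤ 2 by norm_num) hx).trans h8'
  have horth := orth (P - P) (H 1) (fun u hu v hv =>
    ⟨hB u hu v hv, by rw [sub_eq_add_neg]; exact hB u hu _ (hBn v hv)⟩) (hH.neg 1)
  obtain ⟨g, hgd⟩ : ∃ g, g = K ^ 5 := ⟨_, rfl⟩
  rw [← hgd] at hg
  have hKg : K ≤ g := hgd ▸ Nat.le_self_pow (by norm_num) _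
  obtain ⟨L, hL⟩ : ∃ L, L = 7 * g + ℓ + b + 4 := ⟨_, rfl⟩
  obtain ⟨j1, hj1⟩ : ∃ j1, j1 = L * (2 * b + 15) * ((2 * b + 1) * (12 * g + 9)) * (5 * b + 24) :=
    ⟨_, rfl⟩
  have hj : j1 ≤ c * K ^ 10 * ℓ := by
    have e1 : L ≤ (b + 12) * (g * ℓ) := by
      have := Nat.mul_le_mul (show 1 ≤ g by omega) hℓ1
      have := Nat.mul_le_mul_left g hℓ1
      have := Nat.mul_le_mul_right ℓ (show 1 ≤ g by omega)
      nlinarith
    calc j1 ≤ (b + 12) * (g * ℓ) * (2 * b + 15) * ((2 * b + 1) * (21 * g)) * (5 * b + 24) := by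
          rw [hj1]; gcongr; omega
      _ = _ := by rw [hc, hgd]; ring
  obtain ⟨j, hjj, hR⟩ := scale (H 1) (H 2) ((H 1).image fun p => p.2 / p.1) (K ^ 10 * (M * #P))
    (Nat.log 2 #P + 1) j1 #P (fun u hu v hv => hH.add 1 1 u v hu hv) h8' ha
    (fun σ => (han σ).trans_lt (Nat.lt_pow_succ_log_self one_lt_two _)) (by
      by_contra hcon
      push Not at hcon
      have e1 : #P ≤ K ^ 10 * (M * #P) := hMn.trans (Nat.le_mul_of_pos_left _ (by positivity))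
      have e2 : K ^ 10 * (M * #P) ≤ K ^ 10 * (M * #P) * (c * K ^ 10 * ℓ) :=
        Nat.le_mul_of_pos_right _ (by positivity)
      have e3 := Nat.mul_le_mul_left (K ^ 10 * (M * #P)) hj
      have e4 : ep (P - P) nrm ≤ 132 * (K ^ 10 * (M * #P) * (c * K ^ 10 * ℓ)) := by
        rw [mul_assoc 12] at hcon
        omega
      have e5 : #P * #P ≤ 132 * c * K ^ 20 * M * ℓ * D * #P :=
        calc #P * #P = #P ^ 2 := (sq _).symm
          _ ≤ D * (132 * (K ^ 10 * (M * #P) * (c * K ^ 10 * ℓ))) :=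
              hcs.trans (Nat.mul_le_mul_left _ e4)
          _ = _ := by ring
      have := Nat.le_of_mul_le_mul_right e5 hn0
      omega)
  set S := cls ((H 1).image fun p => p.2 / p.1) (fun σ => #(lp (H 1) σ)) j with hS
  have hk : ∀ σ ∈ S, 2 ^ j ≤ #(lp (H 1) σ) := fun σ hσ => (mem_filter.1 hσ).2.1
  obtain ⟨σ, hσ⟩ : S.Nonempty := card_pos.1
    (Nat.pos_of_mul_pos_right (Nat.pos_of_mul_pos_left (hn0.trans_le hR)))
  have two : ∀ {u v : ℕ}, u ≤ v → 2 ^ u ≤ 2 ^ v := fun h => Nat.pow_le_pow_right two_pos h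
  have hK2 : K ≤ 2 ^ g := hKg.trans Nat.lt_two_pow_self.le
  have hgK : 2 ^ g * K * 2 ^ ℓ ≤ 2 ^ L :=
    calc _ ≤ 2 ^ g * 2 ^ g * 2 ^ ℓ := by gcongr
      _ = 2 ^ (2 * g + ℓ) := by ring
      _ ≤ _ := two (by omega)
  have par : Par g (2 ^ g * K * #P) (2 ^ L) b :=
    ⟨by rw [show 64 = 2 ^ 6 from rfl, ← pow_mul]; exact two (by omega),
      two (show 4 ≤ L by omega), hb, Nat.lt_two_pow_self.le.trans (two (by omega)),
      by
        have e1 : 2 * g ≤ 2 ^ (L - 1) := Nat.lt_two_pow_self.le.trans (two (by omega))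
        have e2 : 2 ^ ℓ ≤ 2 ^ (L - 1) := two (by omega)
        have e3 : 2 ^ L = 2 ^ (L - 1) * 2 := by rw [← pow_succ]; congr 1; omega
        calc 2 ^ g * K * #P < 2 ^ g * 2 ^ g * 2 ^ (Nat.log 2 #P + 1) :=
              Nat.mul_lt_mul_of_le_of_lt (by gcongr) (Nat.lt_pow_succ_log_self one_lt_two _)
                (by positivity)
          _ = 2 ^ (2 * g + (Nat.log 2 #P + 1)) := by ring
          _ ≤ _ := two (by omega)⟩
  obtain ⟨G, hG⟩ : ∃ G, G = (2 ^ L) ^ (2 * b + 15) := ⟨_, rfl⟩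
  obtain ⟨X, hX⟩ : ∃ X, X = G ^ ((2 * b + 1) * (12 * g + 9)) := ⟨_, rfl⟩
  have hY : X ^ (5 * b + 24) = 2 ^ j1 := by rw [hX, hG, hj1]; simp only [← pow_mul]
  have hGL : 2 ^ L ≤ G := hG ▸ Nat.le_self_pow (by omega) _
  have hG2 : 2 ≤ G := le_trans (le_trans (by norm_num) par.h16) hGL
  have hX0 : 0 < X := by rw [hX]; positivity
  obtain ⟨w, hw, A, hA, hN⟩ := core hH hg par S hk
    (calc 2 ^ g * K * #P ≤ 2 ^ g * K * (2 ^ ℓ * (#S * (2 ^ j) ^ 2)) :=
          Nat.mul_le_mul_left _ (hR.trans (Nat.mul_le_mul_right _ hℓ))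
      _ = 2 ^ g * K * 2 ^ ℓ * (#S * (2 ^ j) ^ 2) := by ring
      _ ≤ _ := Nat.mul_le_mul_right _ hgK) hG hX
    ((Nat.pow_le_pow_right hX0 (by omega)).trans (hY.le.trans (two hjj)))
  have e1 := transfer hμ hw p0 A (H (G + 1)) fun p hp x hx => hH.add _ _ _ _ (hA x hx) (hP1 p hp)
  have e2 : #A ≤ X * μ := by
    refine Nat.le_of_mul_le_mul_left (c := #P) (e1.trans ?_) hn0
    have e3 : (G + 1) ^ g * (2 ^ g * K) ≤ X :=
      calc _ ≤ (G * G) ^ g * G := Nat.mul_le_mul (Nat.pow_le_pow_left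
            (le_trans (by omega) (Nat.mul_le_mul_right G hG2)) _)
            (((Nat.le_mul_of_pos_right _ (by positivity)).trans hgK).trans hGL)
        _ = G ^ (2 * g + 1) := by rw [mul_pow]; ring
        _ ≤ X := hX ▸ Nat.pow_le_pow_right (by omega)
            (le_trans (by omega) (Nat.le_mul_of_pos_left _ (by omega)))
    calc μ * #(H (G + 1)) ≤ μ * ((G + 1) ^ g * (2 ^ g * K * #P)) :=
          Nat.mul_le_mul_left _ (hg _ (by omega))
      _ = #P * ((G + 1) ^ g * (2 ^ g * K) * μ) := by ring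
      _ ≤ _ := by gcongr
  calc (M * #P) ^ b ≤ (2 ^ g * K * #P) ^ b :=
        Nat.pow_le_pow_left (Nat.mul_le_mul_right _
          (hMK.trans (Nat.le_mul_of_pos_left _ (by positivity)))) _
    _ ≤ X ^ (2 * b) * (X * μ) ^ (2 * b + 24) := hN.trans (by gcongr)
    _ = X ^ (4 * b + 24) * μ ^ (2 * b + 24) := by rw [mul_pow]; ring
    _ ≤ _ := Nat.mul_le_mul_right _ ((Nat.pow_le_pow_right hX0 (by omega)).trans
        (hY.le.trans ((two hjj).trans ((hk σ hσ).trans (han σ)))))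

/-- Coordinates of the Euclidean plane. -/
def coord : EuclideanSpace ℝ (Fin 2) →+ ℝ × ℝ where
  toFun p := (p 0, p 1)
  map_zero' := rfl
  map_add' _ _ := rfl

lemma coord_apply (p : EuclideanSpace ℝ (Fin 2)) : coord p = (p 0, p 1) := rfl

lemma coord_inj : Function.Injective coord := fun p q h => by
  have h0 : p 0 = q 0 := congrArg Prod.fst h
  have h1 : p 1 = q 1 := congrArg Prod.snd h
  ext i
  fin_cases i
  · exact h0
  · exact h1

lemma nrm_coord (p q : EuclideanSpace ℝ (Fin 2)) : nrm (coord (p - q)) = dist p q ^ 2 := by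
  rw [EuclideanSpace.dist_sq_eq, Fin.sum_univ_two]
  simp [nrm, coord_apply, Real.dist_eq, sq_abs]

lemma log_two_le {m : ℕ} (hm : m ≠ 0) : (Nat.log 2 m : ℝ) ≤ 2 * Real.log m := by
  have h1 : ((2 ^ Nat.log 2 m : ℕ) : ℝ) ≤ m := Nat.cast_le.2 (Nat.pow_log_le_self 2 hm)
  have h2 := Real.log_le_log (by positivity) h1
  rw [Nat.cast_pow, Real.log_pow, Nat.cast_ofNat] at h2
  nlinarith [Real.log_two_gt_d9, (Nat.cast_nonneg (Nat.log 2 m) : (0 : ℝ) ≤ _)]

lemma ell_le {n : ℕ} (hn : 16 ≤ n) : 1 ≤ Real.log (Real.log n) ∧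
    ((Nat.log 2 (Nat.log 2 n + 1) + 1 : ℕ) : ℝ) ≤ 7 * Real.log (Real.log n) := by
  have h1 : Real.exp 1 ≤ Real.log n := by
    have h2 : Real.log ((2 : ℝ) ^ 4) ≤ Real.log n :=
      Real.log_le_log (by norm_num) (by exact_mod_cast hn)
    rw [Real.log_pow] at h2
    push_cast at h2
    linarith [Real.log_two_gt_d9, Real.exp_one_lt_d9]
  have h0 : 1 ≤ Real.log n := le_trans (by linarith [Real.add_one_le_exp (1 : ℝ)]) h1
  have h3 : 1 ≤ Real.log (Real.log n) := (Real.le_log_iff_exp_le (by linarith)).2 h1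
  refine ⟨h3, ?_⟩
  have h4 := log_two_le (show n ≠ 0 by omega)
  have h5 := log_two_le (show Nat.log 2 n + 1 ≠ 0 by omega)
  have h6 : Real.log ((Nat.log 2 n + 1 : ℕ) : ℝ) ≤ Real.log (3 * Real.log n) :=
    Real.log_le_log (by positivity) (by push_cast; linarith)
  rw [Real.log_mul (by norm_num) (by linarith)] at h6
  have h7 : Real.log 3 ≤ 2 := by linarith [Real.log_le_sub_one_of_pos (show (0 : ℝ) < 3 by norm_num)]
  rw [Nat.cast_add, Nat.cast_one]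
  linarith

open Classical in
theorem main (ε : ℝ) (hε : 0 < ε) : ∃ C : ℕ,
    ∀ (P R : Finset (EuclideanSpace ℝ (Fin 2))) (K M : ℕ), 16 ≤ #P → R ⊆ P → M ≤ K →
      #P ≤ M * #R → #(R - R) ≤ K * #R →
      C * K ^ 20 * M * Real.log (Real.log #P) * #(P.offDiag.image fun q => dist q.1 q.2) < #R →
      ∃ Q ⊆ P, Collinear ℝ (Q : Set (EuclideanSpace ℝ (Fin 2))) ∧
        (#P : ℝ) ^ (1 / 2 - ε) ≤ #Q := by
  obtain ⟨b, hb⟩ := exists_nat_ge (14 / ε)
  obtain ⟨C, hC⟩ := top (b + 1) (by omega)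
  refine ⟨C * 14, fun P R K M hn hRP hMK hM hK hD => ?_⟩
  obtain ⟨Q, hQ, hmax⟩ := (P.powerset.filter fun Q : Finset (EuclideanSpace ℝ (Fin 2)) =>
    Collinear ℝ (Q : Set (EuclideanSpace ℝ (Fin 2)))).exists_max_image card
    ⟨∅, by simp [collinear_empty]⟩
  rw [mem_filter, mem_powerset] at hQ
  refine ⟨Q, hQ.1, hQ.2, ?_⟩
  have hP : P.Nonempty := card_pos.1 (by omega)
  have hR : R.Nonempty := card_pos.1 (Nat.pos_of_mul_pos_left (hP.card_pos.trans_le hM))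
  have hM0 : 0 < M := Nat.pos_of_mul_pos_right (hP.card_pos.trans_le hM)
  have hn0 : (0 : ℝ) < #P := by exact_mod_cast hP.card_pos
  have hn1 : (1 : ℝ) ≤ #P := by exact_mod_cast hP.card_pos
  have e1 : #(R.image coord) = #R := card_image_of_injective _ coord_inj
  have e2 : R.image coord - R.image coord = (R - R).image coord := by
    ext u
    simp only [mem_sub, mem_image]
    constructor
    · rintro ⟨_, ⟨p, hp, rfl⟩, _, ⟨q, hq, rfl⟩, rfl⟩
      exact ⟨p - q, ⟨p, hp, q, hq, rfl⟩, map_sub _ _ _⟩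
    · rintro ⟨_, ⟨p, hp, q, hq, rfl⟩, rfl⟩
      exact ⟨_, ⟨p, hp, rfl⟩, _, ⟨q, hq, rfl⟩, (map_sub _ _ _).symm⟩
  obtain ⟨l1, l2⟩ := ell_le hn
  set Δ := #(P.offDiag.image fun q => dist q.1 q.2) with hΔ
  have hΔ1 : 1 ≤ Δ := by
    obtain ⟨p, hp, q, hq, hne⟩ := one_lt_card.1 (show 1 < #P by omega)
    exact card_pos.2 ⟨_, mem_image_of_mem _ (mem_offDiag.2 ⟨hp, hq, hne⟩ : (p, q) ∈ _)⟩
  have key := hC (R.image coord) K M #Q (2 * Δ) (Nat.log 2 (Nat.log 2 #P + 1) + 1) (hR.image _)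
    (by rw [e2, card_image_of_injective _ coord_inj, e1]; exact hK)
    (fun z w R₁ hR₁ hl => by
      obtain ⟨R', hR', rfl⟩ := subset_image_iff.1 hR₁
      rw [card_image_of_injective _ coord_inj]
      refine hmax R' (mem_filter.2 ⟨mem_powerset.2 (hR'.trans hRP), ?_⟩)
      rw [collinear_iff_exists_forall_eq_smul_vadd]
      refine ⟨!₂[z.1, z.2], !₂[w.1, w.2], fun p hp => ?_⟩
      obtain ⟨x, hx⟩ := hl _ (mem_image_of_mem _ (mem_coe.1 hp))
      exact ⟨x, coord_inj (hx.trans (by ext <;> simp [coord_apply]))⟩)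
    (by
      have : (R.image coord - R.image coord).image nrm ⊆
          insert 0 ((P.offDiag.image fun q => dist q.1 q.2).image (· ^ 2)) := fun r hr => by
        rw [e2] at hr
        obtain ⟨_, hu, rfl⟩ := mem_image.1 hr
        obtain ⟨_, hv, rfl⟩ := mem_image.1 hu
        obtain ⟨p, hp, q, hq, rfl⟩ := mem_sub.1 hv
        rw [nrm_coord]
        by_cases h : p = q
        · simp [h]
        · exact mem_insert_of_mem (mem_image.2 ⟨dist p q,
            mem_image.2 ⟨(p, q), mem_offDiag.2 ⟨hRP hp, hRP hq, h⟩, rfl⟩, rfl⟩)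
      have h1 := (card_le_card this).trans (card_insert_le _ _)
      have h2 : #((P.offDiag.image fun q => dist q.1 q.2).image (· ^ 2)) ≤ Δ := card_image_le
      omega)
    (by
      rw [e1]
      exact le_trans (Nat.succ_le_succ (Nat.log_mono_right (card_le_card hRP)))
        (Nat.lt_pow_succ_log_self one_lt_two _).le) (by omega) hM0 hMK
    (by
      rw [e1]
      generalize Nat.log 2 (Nat.log 2 #P + 1) + 1 = ℓ at l2 ⊢
      have h4 : (C : ℝ) * K ^ 20 * M * ℓ * (2 * Δ) < #R :=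
        calc (C : ℝ) * K ^ 20 * M * ℓ * (2 * Δ) ≤
              C * K ^ 20 * M * (7 * Real.log (Real.log #P)) * (2 * Δ) := by gcongr
          _ = (C * 14 : ℕ) * K ^ 20 * M * Real.log (Real.log #P) * Δ := by push_cast; ring
          _ < _ := hD
      exact_mod_cast h4)
  rw [e1] at key
  have fin : ∀ u v : ℕ, v ≠ 0 → #P ^ u ≤ #Q ^ v → 1 / 2 - ε ≤ u / v →
      (#P : ℝ) ^ (1 / 2 - ε) ≤ #Q := fun u v hv h he => by
    have h' : (#P : ℝ) ^ u ≤ #Q ^ v := by exact_mod_cast h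
    calc (#P : ℝ) ^ (1 / 2 - ε) ≤ (#P : ℝ) ^ ((u : ℝ) / v) :=
          Real.rpow_le_rpow_of_exponent_le hn1 he
      _ = ((#P : ℝ) ^ u) ^ ((v : ℝ)⁻¹) := by
          rw [div_eq_mul_inv, Real.rpow_mul hn0.le, Real.rpow_natCast]
      _ ≤ ((#Q : ℝ) ^ v) ^ ((v : ℝ)⁻¹) := Real.rpow_le_rpow (by positivity) h' (by positivity)
      _ = _ := Real.pow_rpow_inv_natCast (by positivity) hv
  rcases key with h | h
  · exact fin 1 2 (by norm_num) (by simpa using hM.trans h) (by push_cast; linarith)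
  · have h' : #P * #P ^ b ≤ #P * #Q ^ (2 * (b + 1) + 24) := by
      rw [← pow_succ']
      exact ((Nat.pow_le_pow_left hM _).trans h).trans
        (Nat.mul_le_mul_right _ (card_le_card hRP))
    refine fin b _ (by omega) (Nat.le_of_mul_le_mul_left h' hP.card_pos) ?_
    rw [div_le_iff₀ hε] at hb
    rw [le_div_iff₀ (by positivity)]
    push_cast
    nlinarith

open Classical in
theorem doubling (ε : ℝ) (hε : 0 < ε) : ∃ C : ℝ, 0 < C ∧
    ∀ (P : Finset (EuclideanSpace ℝ (Fin 2))) (K : ℝ), 16 ≤ #P → (#(P - P) : ℝ) ≤ K * #P →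
      C * K ^ 20 * Real.log (Real.log #P) * #(P.offDiag.image fun q => dist q.1 q.2) ≤ #P →
      ∃ Q ⊆ P, Collinear ℝ (Q : Set (EuclideanSpace ℝ (Fin 2))) ∧
        (#P : ℝ) ^ (1 / 2 - ε) ≤ #Q := by
  obtain ⟨C, hC⟩ := main ε hε
  refine ⟨C * 2 ^ 20 + 1, by positivity, fun P K hn hK hD => ?_⟩
  have hP : P.Nonempty := card_pos.1 (by omega)
  have hn0 : (0 : ℝ) < #P := by exact_mod_cast hP.card_pos
  have hK1 : 1 ≤ K := by
    have : (#P : ℝ) ≤ #(P - P) := by exact_mod_cast card_le_card_sub_right hP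
    exact le_of_mul_le_mul_right (by linarith) hn0
  have h1 : (⌈K⌉₊ : ℝ) ≤ 2 * K := by linarith [Nat.ceil_lt_add_one (show 0 ≤ K by linarith)]
  have l1 := (ell_le hn).1
  refine hC P P ⌈K⌉₊ 1 hn Subset.rfl (Nat.ceil_pos.2 (by linarith)) (by omega) ?_ ?_
  · have : (#(P - P) : ℝ) ≤ ⌈K⌉₊ * #P := hK.trans (by gcongr; exact Nat.le_ceil K)
    exact_mod_cast this
  · generalize #(P.offDiag.image fun q => dist q.1 q.2) = Δ at hD ⊢
    rcases Nat.eq_zero_or_pos Δ with rfl | h0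
    · simpa using hP.card_pos
    have h3 : 0 < K ^ 20 * Real.log (Real.log #P) * Δ := by positivity
    calc _ ≤ C * (2 * K) ^ 20 * (1 : ℕ) * Real.log (Real.log #P) * Δ := by gcongr
      _ = C * 2 ^ 20 * (K ^ 20 * Real.log (Real.log #P) * Δ) := by push_cast; ring
      _ < _ := by linarith

open Classical in
theorem energy (ε : ℝ) (hε : 0 < ε) : ∃ C : ℝ, 0 < C ∧
    ∀ (P : Finset (EuclideanSpace ℝ (Fin 2))) (K : ℝ), 16 ≤ #P →
      (#P : ℝ) ^ 3 ≤ K * addEnergy P P →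
      C * K ^ 82 * Real.log (Real.log #P) * #(P.offDiag.image fun q => dist q.1 q.2) ≤ #P →
      ∃ Q ⊆ P, Collinear ℝ (Q : Set (EuclideanSpace ℝ (Fin 2))) ∧
        (#P : ℝ) ^ (1 / 2 - ε) ≤ #Q := by
  obtain ⟨C, hC⟩ := main ε hε
  refine ⟨C * 4096 ^ 20 * 16 * 2 ^ 82 + 1, by positivity, fun P K hn hK hD => ?_⟩
  have hP : P.Nonempty := card_pos.1 (by omega)
  have hn0 : (0 : ℝ) < #P := by exact_mod_cast hP.card_pos
  have hK1 : 1 ≤ K := by
    have e : addEnergy P P ≤ #P ^ 3 := by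
      rw [show #P ^ 3 = #((P ×ˢ P) ×ˢ P) by simp only [card_product]; ring, addEnergy]
      refine card_le_card_of_injOn (fun x => (x.1, x.2.1)) ?_ ?_
      · rintro ⟨⟨a, b⟩, c, d⟩ hx
        simp only [coe_filter, mem_product, Set.mem_ofPred_eq, mem_coe] at hx ⊢
        exact ⟨hx.1.1, hx.1.2.1⟩
      · rintro ⟨a, c, d⟩ hx ⟨a', c', d'⟩ hx' e
        simp only [coe_filter, Set.mem_ofPred_eq, Prod.mk.injEq] at hx hx' e ⊢
        obtain ⟨rfl, rfl⟩ := e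
        exact ⟨rfl, rfl, add_left_cancel (hx.2.symm.trans hx'.2)⟩
    have e' : (addEnergy P P : ℝ) ≤ #P ^ 3 := by exact_mod_cast e
    have e0 : (0 : ℝ) ≤ addEnergy P P := by positivity
    have e3 : (0 : ℝ) < #P ^ 3 := by positivity
    by_contra hc
    rcases e0.eq_or_lt with h | h
    · rw [← h] at hK; linarith
    · nlinarith [mul_pos (sub_pos.2 (not_le.1 hc)) h]
  have h1 : (⌈K⌉₊ : ℝ) ≤ 2 * K := by linarith [Nat.ceil_lt_add_one (show 0 ≤ K by linarith)]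
  have hk : 0 < ⌈K⌉₊ := Nat.ceil_pos.2 (by linarith)
  have l1 := (ell_le hn).1
  obtain ⟨R, hR, r1, r2⟩ := bsg P ⌈K⌉₊ hP (by
    have : (#P : ℝ) ^ 3 ≤ ⌈K⌉₊ * addEnergy P P := hK.trans (by gcongr; exact Nat.le_ceil K)
    exact_mod_cast this)
  generalize ⌈K⌉₊ = k at *
  refine hC P R (4096 * k ^ 4) (4 * k) hn hR
    (Nat.mul_le_mul (by norm_num) (Nat.le_self_pow (by norm_num) _)) r1 r2 ?_
  generalize #(P.offDiag.image fun q => dist q.1 q.2) = Δ at hD ⊢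
  have r3 : (#P : ℝ) ≤ 4 * k * #R := by exact_mod_cast r1
  have hk' : (0 : ℝ) < 4 * k := by positivity
  refine lt_of_mul_lt_mul_left (lt_of_lt_of_le ?_ r3) hk'.le
  rcases Nat.eq_zero_or_pos Δ with rfl | h0
  · simpa using hP.card_pos
  have h3 : 0 < K ^ 82 * Real.log (Real.log #P) * Δ := by positivity
  calc _ = C * 4096 ^ 20 * 16 * (k : ℝ) ^ 82 * Real.log (Real.log #P) * Δ := by push_cast; ring
    _ ≤ C * 4096 ^ 20 * 16 * (2 * K) ^ 82 * Real.log (Real.log #P) * Δ := by gcongr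
    _ = C * 4096 ^ 20 * 16 * 2 ^ 82 * (K ^ 82 * Real.log (Real.log #P) * Δ) := by ring
    _ < _ := by linarith

end SDL

end MrgPart2

-- marker of a merged file
example : 731051 + 140788 = 731051 + 140788 := rfl
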